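import Pool.Agent.T9h37.HD.Final

/-!
# A criterion with one Chow-Kunneth decomposition
-/

open CategoryTheory AlgebraicGeometry

set_option autoImplicit false

universe u v w

namespace Pool.Agent.T9h37.HD

open Pool.Agent.H914 Pool.Agent.H914.VarClass Pool.Agent.H914.VarClass.Obj Pool.Agent.W492.BB
  Pool.Agent.W550.Corr Pool.Agent.TH133 Pool.Agent.Y110 Pool.Agent.TH829.Kim Pool.Agent.T9h37.MC

set_option linter.unusedSectionVars false

variable {k : Type u} [Field k] {𝒱 : VarClass k} {C : TheoryData.{u, v, 0} 𝒱 ℚ}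
  [hC : IsChowProj C] {K : Type w} [Field K]
  {H : WeilTheoryData.{u, v, w} C K} [hH : IsWeilProj H] {X Y Z W : 𝒱.Obj}

/-- No self-correspondence raises the weight on the Chow groups. -/
def NoRaise (P : ℕ → Cor C X) : Prop :=
  ∀ s t : ℕ, s < t → ∀ γ ∈ cor0 C X, ∀ (j : ℕ) (x : C.A X), x ∈ C.gr X j →
    actC C X (P t * γ * P s) x = 0

/-- The filtration is stable under the self-correspondences of degree zero. -/
theorem NoRaise.stable {P : ℕ → Cor C X} (hP : IsCK H X P) (h : NoRaise P) {γ : Cor C X}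
    (hγ : γ ∈ cor0 C X) {i n : ℕ} {x : C.A X} (hx : x ∈ ckFil C P i n) :
    actC C X γ x ∈ ckFil C P i n := by
  rw [mem_fil hP] at hx ⊢
  refine ⟨actC_mem (H := H) hγ hx.1, fun m hm => ?_⟩
  conv_lhs => rw [sum_pr hP x, map_sum, map_sum]
  apply Finset.sum_eq_zero
  intro l _
  by_cases hl : 2 * i + 1 - n ≤ l
  · rw [hx.2 l hl, map_zero, map_zero]
  · have h2 := h l m (by omega) γ hγ i x hx.1
    rw [actC_mul (H := H), actC_mul (H := H)] at h2
    exact h2

/-- A self-correspondence which is idempotent on the Chow groups and zero on `H^(2i-n)(X)` maps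
`F^n CH^i(X)` to `F^(n+1) CH^i(X)`. -/
theorem NoRaise.next {Q : ℕ → Cor C X} (hQ : IsCK H X Q) (h : NoRaise Q) (ω : R0 C X) {i n : ℕ}
    (hnil : ∀ q : R0 C X, Tr H (q * ω * q) → ∃ N : ℕ, ∀ x ∈ C.gr X i,
      actC C X (((q * ω * q) ^ N : R0 C X) : Cor C X) x = 0)
    (h0 : ∀ v ∈ H.gr X (2 * i - n : ℤ), actH C X H ω v = 0)
    (hidem : ∀ y ∈ C.gr X i, actC C X ω (actC C X ω y) = actC C X ω y)
    {y : C.A X} (hy : y ∈ ckFil C Q i n) : actC C X ω y ∈ ckFil C Q i (n + 1) := by
  by_cases hn : 2 * i < n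
  · have h1 : y = 0 := by
      rw [sum_pr hQ y]
      exact Finset.sum_eq_zero fun l _ => ((mem_fil hQ i n y).1 hy).2 l (by omega)
    rw [h1, map_zero]
    exact Submodule.zero_mem _
  obtain ⟨m, hm⟩ : ∃ m : ℕ, 2 * i = m + n := ⟨2 * i - n, by omega⟩
  have hyi : y ∈ C.gr X i := ((mem_fil hQ i n y).1 hy).1
  set q : R0 C X := pr hQ m with hq
  set ν : R0 C X := q * ω * q with hν
  have hνtr : Tr H ν := by
    apply tr_of_act
    intro l v hv
    have hpH : actH C X H (q : Cor C X) v = if l = m then v else 0 := hQ.actH_eq' m l hv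
    change actH C X H ((q : Cor C X) * (ω : Cor C X) * (q : Cor C X)) v = 0
    rw [map_mul, map_mul, Module.End.mul_apply, Module.End.mul_apply, hpH]
    split_ifs with hlm
    · rw [h0 v (by
        have : (2 * i - n : ℤ) = l := by
          rw [hlm]
          have : (2 * i : ℤ) = m + n := by exact_mod_cast hm
          omega
        rwa [this]), map_zero]
    · rw [map_zero, map_zero]
  obtain ⟨N, hN⟩ := hnil q hνtr
  have hstep : ∀ z ∈ ckFil C Q i n, actC C X (Q m) (actC C X ω z) =
      actC C X (ν : Cor C X) (actC C X (Q m) z) := by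
    intro z hz
    have hz' := (mem_fil hQ i n z).1 hz
    have e1 : actC C X (ν : Cor C X) (actC C X (Q m) z) =
        actC C X (Q m) (actC C X ω (actC C X (Q m) z)) := by
      have e2 : (ν : Cor C X) * Q m = Q m * (ω : Cor C X) * Q m := by
        change Q m * (ω : Cor C X) * Q m * Q m = _
        rw [mul_assoc _ (Q m) (Q m), hQ.mul_eq, if_pos rfl]
      rw [← actC_mul (H := H), e2, actC_mul (H := H), actC_mul (H := H)]
    rw [e1]
    conv_lhs => rw [sum_pr hQ z, map_sum, map_sum]
    rw [Finset.sum_eq_single m]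
    · intro l _ hne
      rcases lt_or_gt_of_ne hne with h3 | h3
      · have h4 := h l m h3 ω ω.2 i z hz'.1
        rw [actC_mul (H := H), actC_mul (H := H)] at h4
        exact h4
      · rw [hz'.2 l (by omega), map_zero, map_zero]
    · intro h3
      rw [Finset.mem_range] at h3
      rw [show Q m = 0 from hQ.out m (by omega), map_zero]
      rfl
  have hiter : ∀ t : ℕ, (actC C X (ω : Cor C X))^[t] y ∈ ckFil C Q i n ∧
      actC C X (Q m) ((actC C X (ω : Cor C X))^[t] y) =
        actC C X ((ν ^ t : R0 C X) : Cor C X) (actC C X (Q m) y) := by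
    intro t
    induction t with
    | zero =>
      refine ⟨hy, ?_⟩
      rw [pow_zero]
      change _ = actC C X 1 _
      rw [map_one]
      rfl
    | succ t ih =>
      rw [Function.iterate_succ_apply']
      refine ⟨h.stable hQ ω.2 ih.1, ?_⟩
      rw [hstep _ ih.1, ih.2, pow_succ', ← actC_mul (H := H)]
      rfl
  have hid : ∀ t : ℕ, (actC C X (ω : Cor C X))^[t + 1] y = actC C X ω y := by
    intro t
    induction t with
    | zero => rfl
    | succ t ih =>
      rw [Function.iterate_succ_apply', ih]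
      exact hidem y hyi
  have h6 : actC C X (Q m) (actC C X ω y) = 0 := by
    have h5 := (hiter (N + 1)).2
    rw [hid N, pow_succ'] at h5
    have h8 : actC C X ((ν * ν ^ N : R0 C X) : Cor C X) (actC C X (Q m) y) =
        actC C X (ν : Cor C X) (actC C X ((ν ^ N : R0 C X) : Cor C X) (actC C X (Q m) y)) :=
      actC_mul (H := H) (ν : Cor C X) ((ν ^ N : R0 C X) : Cor C X) _
    rw [h8, hN _ (actC_mem (H := H) (hQ.deg m) hyi), map_zero] at h5
    exact h5
  have h7 : actC C X ω y ∈ ckFil C Q i n := h.stable hQ ω.2 hy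
  rw [mem_fil hQ] at h7 ⊢
  refine ⟨h7.1, fun l hl => ?_⟩
  by_cases hlm : l = m
  · rw [hlm]
    exact h6
  · exact h7.2 l (by omega)

/-- The filtrations agree if one of the decompositions does not raise weights. -/
theorem NoRaise.fil_iff {P Q : ℕ → Cor C X} (hQ : IsCK H X Q) (h : NoRaise Q)
    (hB : ∀ (j m : ℕ) (x : C.A X), x ∈ C.gr X j → 2 * j < m → actC C X (Q m) x = 0)
    (hnil : ∀ (j : ℕ) (n : R0 C X), Tr H n → ∃ N : ℕ, ∀ x ∈ C.gr X j,
      actC C X ((n ^ N : R0 C X) : Cor C X) x = 0)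
    (hP : IsCK H X P) {j : ℕ} (n : ℕ) {x : C.A X}
    (hx : x ∈ C.gr X j) : x ∈ ckFil C P j n ↔ x ∈ ckFil C Q j n := by
  let ω : ℕ → R0 C X := fun l => pr hP l
  have hω : ∀ l y, actC C X (ω l) y = actC C X (P l) y := fun _ _ => rfl
  have hωi : ∀ l, ∀ y ∈ C.gr X j, actC C X (ω l) (actC C X (ω l) y) = actC C X (ω l) y := by
    intro l y _
    rw [hω, hω, ← actC_mul (H := H), hP.mul_eq, if_pos rfl]
  have hωH : ∀ (l : ℕ) (m : ℤ), m ≠ l → ∀ v ∈ H.gr X m, actH C X H (ω l) v = 0 := by
    intro l m hm v hv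
    change actH C X H (P l) v = 0
    rw [hP.actH_eq' l _ hv, if_neg hm]
  constructor
  · intro hxf
    rw [mem_fil hP] at hxf
    rw [sum_pr hP x]
    refine Submodule.sum_mem _ fun l _ => ?_
    by_cases hl : 2 * j + 1 - n ≤ l
    · rw [hxf.2 l hl]
      exact Submodule.zero_mem _
    · have key : ∀ t : ℕ, t ≤ n → actC C X (ω l) x ∈ ckFil C Q j t := by
        intro t
        induction t with
        | zero =>
          intro _
          rw [mem_fil hQ]
          have h1 : actC C X (ω l) x ∈ C.gr X j := actC_mem (H := H) (ω l).2 hx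
          exact ⟨h1, fun m hm => hB j m _ h1 (by omega)⟩
        | succ t ih =>
          intro ht
          have h1 := h.next hQ (ω l) (i := j) (n := t) (fun q hq => hnil j _ hq)
            (hωH l _ (by omega)) (hωi l) (ih (by omega))
          rwa [hωi l _ hx] at h1
      exact key n le_rfl
  · intro hxf
    rw [mem_fil hP]
    refine ⟨hx, fun l hl => ?_⟩
    have key : ∀ t : ℕ, actC C X (ω l) x ∈ ckFil C Q j (n + t) := by
      intro t
      induction t with
      | zero => exact h.stable hQ (ω l).2 hxf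
      | succ t ih =>
        have h1 := h.next hQ (ω l) (i := j) (n := n + t) (fun q hq => hnil j _ hq)
          (hωH l _ (by push_cast; omega)) (hωi l) ih
        rwa [hωi l _ hx] at h1
    have h1 := (mem_fil hQ j _ _).1 (key (2 * j + 1))
    have h2 : actC C X (ω l) x = 0 := by
      rw [sum_pr hQ (actC C X (ω l) x)]
      exact Finset.sum_eq_zero fun l _ => h1.2 l (by omega)
    exact h2

section

variable {r : ℤ} {a : C.A (X.prod Y)} {b : C.A (Y.prod X)}
  (ha : a ∈ C.gr (X.prod Y) (X.dim + r)) (hb : b ∈ C.gr (Y.prod X) (Y.dim + -r))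

/-- Homologically trivial self-correspondences are nilpotent on the Chow groups. -/
theorem nil_on_chow (hnil : ∀ n : R0 C X, Tr H n → IsNilpotent (n * phi ha hb 1))
    {w : R0 C X} (hw : ∀ (j : ℤ) (x : C.A X), x ∈ C.gr X j →
      actC C X (w * phi ha hb 1) x = x ∧ actC C X (phi ha hb 1 * w) x = x)
    (j : ℕ) (n : R0 C X) (hn : Tr H n) : ∃ N : ℕ, ∀ x ∈ C.gr X j,
      actC C X ((n ^ N : R0 C X) : Cor C X) x = 0 := by
  obtain ⟨N, hN⟩ := hnil (n * w) (hn.mul_right w)
  refine ⟨N, fun x hx => ?_⟩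
  have h1 : ∀ t : ℕ, ∀ x ∈ C.gr X j, actC C X ((n ^ t : R0 C X) : Cor C X) x =
      actC C X (((n * w * phi ha hb 1) ^ t : R0 C X) : Cor C X) x := by
    intro t
    induction t with
    | zero => intro x _; rw [pow_zero, pow_zero]
    | succ t ih =>
      intro x hx
      rw [pow_succ, pow_succ]
      change actC C X (((n ^ t : R0 C X) : Cor C X) * (n : Cor C X)) x =
        actC C X ((((n * w * phi ha hb 1) ^ t : R0 C X) : Cor C X) *
          ((n : Cor C X) * (w : Cor C X) * ((phi ha hb 1 : R0 C X) : Cor C X))) x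
      rw [actC_mul (H := H), actC_mul (H := H),
        mul_assoc (n : Cor C X) (w : Cor C X), actC_mul (H := H) (n : Cor C X), (hw j x hx).1]
      exact ih _ (actC_mem (H := H) n.2 hx)
  rw [h1 N x hx, hN]
  change actC C X 0 x = 0
  rw [map_zero]
  rfl

/-- (C) for `X` follows from injectivity of `b ∘ a` and a property of one decomposition. -/
theorem murreC_one (hnil : ∀ n : R0 C X, Tr H n → IsNilpotent (n * phi ha hb 1))
    (hm : ∀ v : H.A X, H.act (H.cl b) (H.act (H.cl a) v) = v)
    (hi : ∀ (j : ℤ) (x : C.A X), x ∈ C.gr X j → actC C X (phi ha hb 1) x = 0 → x = 0)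
    {Q : ℕ → Cor C X} (hQ : IsCK H X Q) (h : NoRaise Q)
    (hB : ∀ (j m : ℕ) (x : C.A X), x ∈ C.gr X j → 2 * j < m → actC C X (Q m) x = 0) :
    MurreC H X := by
  obtain ⟨w, hw⟩ := exists_inv ha hb hnil hm hi
  intro π π' hπ hπ' j n
  ext x
  by_cases hx : x ∈ C.gr X j
  · rw [h.fil_iff hQ hB (nil_on_chow ha hb hnil hw) (P := π) hπ n hx,
      h.fil_iff hQ hB (nil_on_chow ha hb hnil hw) (P := π') hπ' n hx]
  · exact ⟨fun h1 => absurd ((mem_fil (P := π) hπ j n x).1 h1).1 hx,
      fun h1 => absurd ((mem_fil (P := π') hπ' j n x).1 h1).1 hx⟩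

end

lemma act3 (H : WeilTheoryData.{u, v, w} C K) [IsWeilProj H] (p γ q : Cor C X) (x : C.A X) :
    actC C X (p * γ * q) x = C.act (X := X) (Y := X) p (C.act (X := X) (Y := X) γ
      (C.act (X := X) (Y := X) q x)) := by
  rw [actC_mul (H := H), actC_mul (H := H)]
  rfl

/-- (C) implies that no decomposition raises weights. -/
theorem noRaise_of_murreC (h : MurreC H X) {P : ℕ → Cor C X} (hP : IsCK H X P) : NoRaise P :=
  fun _ _ hst _ hγ _ _ hx => raise_zero h hP hst hγ hx

end Pool.Agent.T9h37.HD
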