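import Pool.Agent.T9h37.HD.Defs
import Pool.Agent.TH829.Kim.Defs

/-!
# Domination outside one degree: definitions
-/

set_option autoImplicit false

open Pool.Agent.H914 Pool.Agent.H914.VarClass Pool.Agent.H914.VarClass.Obj Pool.Agent.W492.BB
  Pool.Agent.TH133 Pool.Agent.TH829.Kim

universe u v w

namespace Pool.Agent.T9h37.HD

variable {k : Type u} [Field k] {𝒱 : VarClass k} {C : TheoryData.{u, v, 0} 𝒱 ℚ} {K : Type w}
  [Field K] (H : WeilTheoryData.{u, v, w} C K)

/-- For every `m ≠ d` there are a variety `Y`, which is Kimura-finite and has a Chow-Kunneth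
decomposition, and correspondences `a` and `b` from `X` to `Y` and from `Y` to `X`, of degrees `r`
and `-r`, such that `b ∘ a` is the identity of `H^m(X)`. -/
def DominatedOutside (X : 𝒱.Obj) (d : ℕ) : Prop :=
  ∀ m : ℕ, m ≠ d → ∃ (Y : 𝒱.Obj) (r : ℤ) (a : C.A (X.prod Y)) (b : C.A (Y.prod X)),
    IsKimuraFinite C (ratFam C) Y ∧ HasDecomposition H Y ∧ C.Deg (X.dim + r) a ∧
      C.Deg (Y.dim - r) b ∧ IdInDegree H a b m

/-- The homologically trivial idempotent self-correspondences of degree zero of `X` act as zero on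
the Chow groups of `X`. -/
def PhantomsAct0 (X : 𝒱.Obj) : Prop :=
  ∀ p : C.A (X.prod X), C.Deg X.dim p → C.comp p p = p → H.cl p = 0 → ∀ j : ℕ, Kills C p j

end Pool.Agent.T9h37.HD
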