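import Pool.Agent.T9h37.HD.Outside2
import Pool.Agent.T9h37.HD.DefsOut

/-!
# Domination outside one degree: the criterion, in the terms of the definitions
-/

open CategoryTheory AlgebraicGeometry

set_option autoImplicit false

universe u v w

namespace Pool.Agent.T9h37.HD

open Pool.Agent.H914 Pool.Agent.H914.VarClass Pool.Agent.H914.VarClass.Obj Pool.Agent.W492.BB
  Pool.Agent.W550.Corr Pool.Agent.TH133 Pool.Agent.Y110 Pool.Agent.TH829.Kim Pool.Agent.T9h37.MC

variable {k : Type u} [Field k] {𝒱 : VarClass k} {C : TheoryData.{u, v, 0} 𝒱 ℚ}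
  [hC : IsChowProj C] {K : Type w} [Field K]
  {H : WeilTheoryData.{u, v, w} C K} [hH : IsWeilProj H] {X Y : 𝒱.Obj}

lemma good_of {r : ℤ} {a : C.A (X.prod Y)} {b : C.A (Y.prod X)}
    (ha : a ∈ C.gr (X.prod Y) (X.dim + r)) (hb : b ∈ C.gr (Y.prod X) (Y.dim + -r)) {m : ℕ}
    (hY : IsKimuraFinite C (ratFam C) Y) (h : IdInDegree H a b m) :
    Good H m (phi ha hb 1) :=
  ⟨star1 ha hb (Or.inr (nil_of_kimura hY)), fun v hv => (actH_U ha hb v).trans (h v hv)⟩

lemma isPr_of {r : ℤ} {a : C.A (X.prod Y)} {b : C.A (Y.prod X)}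
    (ha : a ∈ C.gr (X.prod Y) (X.dim + r)) (hb : b ∈ C.gr (Y.prod X) (Y.dim + -r)) {i : ℕ}
    (hY : HasDecomposition H Y) (hm : IdInDegree H a b i) : ∃ κ : R0 C X, IsPr H i κ := by
  obtain ⟨Q, hQ⟩ := hY
  have hQ' : IsCK (C := C) H Y (Q : ℕ → Cor C Y) := hQ
  by_cases hi : 0 ≤ (i : ℤ) + 2 * r
  · refine ⟨phi ha hb (pr hQ' ((i : ℤ) + 2 * r).toNat), fun m v hv => ?_⟩
    have h1 : H.act (H.cl a) v ∈ H.gr Y (m + 2 * r) := actH_mem H ha hv
    change H.act (H.cl (toA (phi ha hb _))) v = _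
    rw [toA_phi, actH_comp, actH_comp]
    have h3 : H.act (H.cl (toA (pr hQ' ((i : ℤ) + 2 * r).toNat))) (H.act (H.cl a) v) =
        if m + 2 * r = ((((i : ℤ) + 2 * r).toNat : ℕ) : ℤ) then H.act (H.cl a) v else 0 :=
      hQ'.actH_eq' _ _ h1
    rw [h3]
    by_cases hmi : m = i
    · subst hmi
      rw [if_pos rfl, if_pos (by omega), hm v hv]
    · rw [if_neg hmi, if_neg (by omega)]
      exact TheoryData.act_map_zero _ _
  · refine ⟨0, fun m v hv => ?_⟩
    have h1 : H.act (H.cl a) v ∈ H.gr Y (m + 2 * r) := actH_mem H ha hv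
    change actH C X H 0 v = _
    rw [map_zero]
    split_ifs with hmi
    · by_contra h3
      have h4 : H.act (H.cl a) v = 0 := by
        by_contra h5
        exact absurd (nonneg_of_mem H h1 h5) (by omega)
      apply h3
      subst hmi
      rw [← hm v hv, h4, TheoryData.act_map_zero]
      rfl
    · rfl

lemma ph_iff : PhantomsAct0 H X ↔ Ph H X := by
  constructor
  · intro h p hpp hp j x hx
    have h1 : C.comp (toA p) (toA p) = toA p := by
      rw [← toA_mul, hpp]
    exact h (toA p) (toA_mem p) h1 hp j x hx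
  · intro h p hpd hpp hp j x hx
    exact h (ofA p hpd) (toA_inj (by rw [toA_mul]; exact hpp)) hp j x hx

/-- (C) for varieties dominated by Kimura-finite varieties outside one degree. -/
theorem outside (X : 𝒱.Obj) (d : ℕ) (hd : DominatedOutside H X d) :
    HasDecomposition H X ∧ ∀ π, IsCK H X π →
      (MurreC H X ↔ PhantomsAct0 H X ∧ NeverRaises C π) := by
  have hg : ∀ m : ℕ, m ≠ d → ∃ U : R0 C X, Good H m U := by
    intro m hm
    obtain ⟨Y, r, a, b, hY, -, ha, hb, h⟩ := hd m hm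
    have hb' : b ∈ C.gr (Y.prod X) (Y.dim + -r) := by
      rw [← sub_eq_add_neg]
      exact hb
    exact ⟨_, good_of ha hb' hY h⟩
  have hκ : ∀ m : ℕ, m ≠ d → ∃ κ : R0 C X, IsPr H m κ := by
    intro m hm
    obtain ⟨Y, r, a, b, -, hY, ha, hb, h⟩ := hd m hm
    have hb' : b ∈ C.gr (Y.prod X) (Y.dim + -r) := by
      rw [← sub_eq_add_neg]
      exact hb
    exact isPr_of ha hb' hY h
  refine ⟨?_, fun π hπ => ?_⟩
  · obtain ⟨d', F, hF, -⟩ := exists_ck_above (H := H) d hκ hg (p := 0) (mul_zero _)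
      (tr_of_act fun m v _ => by
        change actH C X H 0 v = 0
        rw [map_zero]
        rfl)
    exact ⟨_, hF⟩
  rw [ph_iff]
  constructor
  · intro hC
    exact ⟨fun p hpp hp j x hx => phantoms_act_zero hC (P := π) hπ d hg hpp hp hx,
      fun j m hjm x hx => act_gt hC (P := π) hπ hjm hx,
      fun s t hst Γ hΓ j x hx => (act3 H (π t) Γ (π s) x).symm.trans
        (raise_zero hC (P := π) hπ hst (γ := Γ) hΓ hx)⟩
  · rintro ⟨h1, h2, h3⟩
    exact murreC_outside h1 d hg (Q := π) hπ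
      (fun s t hst γ hγ j x hx => (act3 H (π t) γ (π s) x).trans (h3 s t hst γ hγ j x hx))
      fun j m x hx hjm => h2 j m hjm x hx

end Pool.Agent.T9h37.HD
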