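import Pool.Agent.T9h37.HD.Final

/-!
# Homological domination: the main theorem
-/

set_option autoImplicit false

open Pool.Agent.H914 Pool.Agent.H914.VarClass Pool.Agent.H914.VarClass.Obj Pool.Agent.W492.BB
  Pool.Agent.W550.Corr Pool.Agent.TH133 Pool.Agent.Y110 Pool.Agent.TH829.Kim Pool.Agent.T9h37.MC
  Pool.Agent.T9h37.HD

universe u v w

namespace Pool.Agent.T9h37.HD

section

variable {k : Type u} [Field k] {𝒱 : VarClass k} {C : TheoryData.{u, v, 0} 𝒱 ℚ}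
  [hC : IsChowProj C] {K : Type w} [Field K] {H : WeilTheoryData.{u, v, w} C K}
  [hH : IsWeilProj H] {X Y : 𝒱.Obj} {r : ℤ} {a : C.A (X.prod Y)} {b : C.A (Y.prod X)}
  (ha : a ∈ C.gr (X.prod Y) (X.dim + r)) (hb : b ∈ C.gr (Y.prod X) (Y.dim + -r))

lemma inj_int (hK : Nil H X ∨ Nil H Y) (h : MurreC H X) {π : ℕ → C.A (X.prod X)}
    (hπ : IsCK H X π) (hm : ∀ v : H.A X, H.act (H.cl b) (H.act (H.cl a) v) = v) (j : ℤ)
    (x : C.A X) (hx : x ∈ C.gr X j) (h0 : actC C X (phi ha hb 1) x = 0) : x = 0 := by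
  by_cases hj : j < 0
  · rw [C.gr_neg X _ hj, Submodule.mem_bot] at hx
    exact hx
  · obtain ⟨i, rfl⟩ := Int.eq_ofNat_of_zero_le (not_lt.1 hj)
    exact inj ha hb (star1 ha hb hK) h (P := π) hπ hm hx h0

end

theorem main {k : Type u} [Field k] {𝒱 : VarClass k} {C : TheoryData.{u, v, 0} 𝒱 ℚ}
    [IsChowProj C] {K : Type w} [Field K] {H : WeilTheoryData.{u, v, w} C K} [IsWeilProj H]
    (X Y : 𝒱.Obj) (hK : IsKimuraFinite C (ratFam C) X ∨ IsKimuraFinite C (ratFam C) Y) (r : ℤ)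
    (a : C.A (X.prod Y)) (ha : C.Deg (X.dim + r) a) (b : C.A (Y.prod X))
    (hb : C.Deg (Y.dim - r) b) :
    (∀ m : ℕ, (∀ v : H.A X, H.Deg m v → H.act (H.cl b) (H.act (H.cl a) v) = v) → MurreC H X →
      ∀ π : ℕ → C.A (X.prod X), IsCK H X π → ∀ j : ℕ,
        (∀ x : C.A X, C.Deg j x →
          (C.act (π m) (C.act b (C.act a (C.act (π m) x))) = 0 → C.act (π m) x = 0) ∧
          ∃ z : C.A X, C.Deg j z ∧
            C.act (π m) (C.act b (C.act a (C.act (π m) z))) = C.act (π m) x) ∧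
        ((∀ y : C.A Y, C.Deg (j + r) y → y = 0) → ∀ x : C.A X, C.Deg j x →
          C.act (π m) x = 0)) ∧
    ((∀ v : H.A X, H.act (H.cl b) (H.act (H.cl a) v) = v) →
      (HasCK H Y → HasCK H X) ∧
      (HasCK H X → MurreC H X → ∀ (j : ℕ) (x : C.A X), C.Deg j x →
        (C.act b (C.act a x) = 0 → x = 0) ∧
        ∃ z : C.A X, C.Deg j z ∧ C.act b (C.act a z) = x) ∧
      (HasCK H Y → MurreC H Y → (MurreC H X ↔ ∀ (j : ℕ) (x : C.A X), C.Deg j x →
        C.act b (C.act a x) = 0 → x = 0)) ∧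
      (HasCK H Y → MurreC H Y → IsKimuraFinite C (ratFam C) X → MurreC H X) ∧
      (HasCK H X → MurreC0 H (X.prod X) → ∃ b' : C.A (Y.prod X), C.Deg (Y.dim - r) b' ∧
        C.comp a b' = dg C X) ∧
      ((∀ v : H.A Y, H.act (H.cl a) (H.act (H.cl b) v) = v) → HasCK H Y →
        IsKimuraFinite C (ratFam C) Y →
        (∀ (j : ℤ) (y : C.A Y), C.Deg (j + r) y → ∃ x : C.A X, C.Deg j x ∧ C.act a x = y) ∧
        (MurreC H X ↔ MurreC H Y ∧ ∀ (j : ℕ) (x : C.A X), C.Deg j x → C.act a x = 0 →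
          x = 0))) := by
  have hK' : Nil H X ∨ Nil H Y := hK.imp nil_of_kimura nil_of_kimura
  have hb' : b ∈ C.gr (Y.prod X) (Y.dim + -r) := by
    rw [← sub_eq_add_neg]
    exact hb
  have hU : ∀ x : C.A X, actC C X (phi ha hb' 1) x = C.act b (C.act a x) := act_U ha hb'
  have toInt : (∀ (j : ℕ) (x : C.A X), C.Deg j x → C.act b (C.act a x) = 0 → x = 0) →
      ∀ (j : ℤ) (x : C.A X), x ∈ C.gr X j → actC C X (phi ha hb' 1) x = 0 → x = 0 := by
    intro h j x hx h0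
    by_cases hj : j < 0
    · rw [C.gr_neg X _ hj, Submodule.mem_bot] at hx
      exact hx
    · obtain ⟨i, rfl⟩ := Int.eq_ofNat_of_zero_le (not_lt.1 hj)
      exact h i x hx (by rw [← hU]; exact h0)
  refine ⟨fun m hm hC π hπ j => ?_, fun hm => ⟨hasCK ha hb' hm hK', fun hX hC j x hx => ?_,
    fun hY hCY => ⟨fun hC j x hx h0 => ?_, fun h => ?_⟩, fun hY hCY hX => ?_,
    fun hX hC0 => ?_, fun hm' hY hYK => ?_⟩⟩
  · obtain ⟨g, hg⟩ := block ha hb' (star1 ha hb' hK') hC (P := π) hπ m hm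
    let P : ℕ → Cor C X := π
    have hP : ∀ z : C.A X, actC C X (P m * (phi ha hb' 1 : R0 C X) * P m) z =
        C.act (π m) (C.act b (C.act a (C.act (π m) z))) := by
      intro z
      rw [actC_mul (H := H), actC_mul (H := H), hU]
      rfl
    have h1 : ∀ x : C.A X, C.Deg j x →
        C.act (π m) (C.act b (C.act a (C.act (π m) x))) = 0 → C.act (π m) x = 0 := by
      intro x hx h0
      have h2 := (hg j x hx).2
      rw [actC_mul (H := H), hP, h0, map_zero] at h2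
      exact h2
    refine ⟨fun x hx => ⟨h1 x hx, ?_⟩, fun hz x hx => h1 x hx ?_⟩
    · have h2 := (hg j x hx).1
      rw [actC_mul (H := H), hP] at h2
      exact ⟨actC C X g x, actC_mem (H := H) g.2 hx, h2.symm⟩
    · have h2 : C.act a (C.act (π m) x) = 0 := by
        apply hz
        exact act_mem' C ha (act_mem0 C (hπ.deg m) hx)
      rw [h2, TheoryData.act_map_zero, TheoryData.act_map_zero]
  · obtain ⟨π, hπ⟩ := hX
    have h1 := inj_int (H := H) ha hb' hK' hC hπ hm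
    refine ⟨fun h0 => h1 j x hx (by rw [hU]; exact h0), ?_⟩
    obtain ⟨w, hw⟩ := exists_inv ha hb' (star1 ha hb' hK') hm h1
    have h2 := (hw j x hx).2
    rw [actC_mul (H := H), hU] at h2
    exact ⟨_, actC_mem (H := H) w.2 hx, h2⟩
  · obtain ⟨π, hπ⟩ := hasCK ha hb' hm hK' hY
    exact inj_int (H := H) ha hb' hK' hC hπ hm j x hx (by rw [hU]; exact h0)
  · obtain ⟨Q, hQ⟩ := hY
    exact murreC_back ha hb' (star1 ha hb' hK') (star2 ha hb' hK') hCY (Q := Q) hQ hm (toInt h)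
  · obtain ⟨Q, hQ⟩ := hY
    exact murreC_back ha hb' (star1 ha hb' hK') (star2 ha hb' hK') hCY (Q := Q) hQ hm
      fun j x _ h0 => inj_of_nil (H := H) ha hb' hm (nil_of_kimura hX) x h0
  · obtain ⟨π, hπ⟩ := hX
    obtain ⟨b', h1, h2⟩ := summand ha hb' hm hK'
      (noPhantoms_of_B0 (murreB0_of_C0 (X.prod X) hC0) (P := π) hπ)
    refine ⟨b', ?_, h2⟩
    have h3 : b' ∈ C.gr (Y.prod X) (Y.dim - r) := by
      rw [sub_eq_add_neg]
      exact h1
    exact h3
  · have hYn : Nil H Y := nil_of_kimura hYK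
    have ha' : a ∈ C.gr (X.prod Y) (X.dim + -(-r)) := by
      rw [neg_neg]
      exact ha
    have hV : ∀ y : C.A Y, actC C Y (phi hb' ha' 1) y = C.act a (C.act b y) := act_U hb' ha'
    have hinj : ∀ (j : ℤ) (y : C.A Y), y ∈ C.gr Y j → actC C Y (phi hb' ha' 1) y = 0 → y = 0 :=
      fun j y _ h0 => inj_of_nil (H := H) hb' ha' hm' hYn y h0
    obtain ⟨w, hw⟩ := exists_inv hb' ha' (star1 (H := H) hb' ha' (Or.inl hYn)) hm' hinj
    refine ⟨fun j y hy => ?_, fun hC => ⟨?_, fun j x hx h0 => ?_⟩, fun h => ?_⟩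
    · have h1 := (hw (j + r) y hy).2
      rw [actC_mul (H := H), hV] at h1
      refine ⟨_, ?_, h1⟩
      have h2 := act_mem' C hb' (actC_mem (H := H) w.2 hy)
      rw [add_neg_cancel_right] at h2
      exact h2
    · obtain ⟨π, hπ⟩ := hasCK ha hb' hm hK' hY
      exact murreC_back hb' ha' (star1 hb' ha' (Or.inl hYn)) (star2 hb' ha' (Or.inl hYn)) hC
        (Q := π) hπ hm' hinj
    · obtain ⟨π, hπ⟩ := hasCK ha hb' hm hK' hY
      refine inj_int (H := H) ha hb' hK' hC hπ hm j x hx ?_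
      rw [hU, h0, TheoryData.act_map_zero]
    · obtain ⟨Q, hQ⟩ := hY
      refine murreC_back ha hb' (star1 ha hb' hK') (star2 ha hb' hK') h.1 (Q := Q) hQ hm
        (toInt fun j x hx h0 => h.2 j x hx (hinj (j + r) _ (act_mem' C ha hx) ?_))
      rw [hV, h0, TheoryData.act_map_zero]

end Pool.Agent.T9h37.HD
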