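import Pool.Agent.T9h37.HD.Main

/-!
# From (C) for the dominating variety to (C)
-/

open CategoryTheory AlgebraicGeometry

set_option autoImplicit false

universe u v w

namespace Pool.Agent.T9h37.HD

open Pool.Agent.H914 Pool.Agent.H914.VarClass Pool.Agent.H914.VarClass.Obj Pool.Agent.W492.BB
  Pool.Agent.W550.Corr Pool.Agent.TH133 Pool.Agent.Y110 Pool.Agent.TH829.Kim Pool.Agent.T9h37.MC

set_option linter.unusedSectionVars false

variable {k : Type u} [Field k] {𝒱 : VarClass k} {C : TheoryData.{u, v, 0} 𝒱 ℚ}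
  [hC : IsChowProj C] {K : Type w} [Field K]
  {H : WeilTheoryData.{u, v, w} C K} [hH : IsWeilProj H] {X Y Z W : 𝒱.Obj}

include hC hH in
lemma sum_pr {P : ℕ → Cor C X} (hP : IsCK H X P) (y : C.A X) :
    y = ∑ l ∈ Finset.range (2 * X.dim + 1), actC C X (P l) y := by
  have h2 : actC C X (∑ l ∈ Finset.range (2 * X.dim + 1), P l) y = y := by
    rw [hP.sum_eq, map_one]
    rfl
  rw [map_sum, LinearMap.sum_apply] at h2
  exact h2.symm

/-- A self-correspondence which is idempotent on the Chow groups and zero on `H^(2i-n)(Y)` maps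
`F^n CH^i(Y)` to `F^(n+1) CH^i(Y)`. -/
theorem next (h : MurreC H Y) {Q : ℕ → Cor C Y} (hQ : IsCK H Y Q) (ω : R0 C Y) {i n : ℕ}
    (hnil : ∀ q : R0 C Y, Tr H (q * ω * q) → IsNilpotent (q * ω * q))
    (h0 : ∀ v ∈ H.gr Y (2 * i - n : ℤ), actH C Y H ω v = 0)
    (hidem : ∀ y ∈ C.gr Y i, actC C Y ω (actC C Y ω y) = actC C Y ω y)
    {y : C.A Y} (hy : y ∈ ckFil C Q i n) : actC C Y ω y ∈ ckFil C Q i (n + 1) := by
  by_cases hn : 2 * i < n
  · have h1 : y = 0 := by
      rw [sum_pr hQ y]
      exact Finset.sum_eq_zero fun l _ => ((mem_fil hQ i n y).1 hy).2 l (by omega)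
    rw [h1, map_zero]
    exact Submodule.zero_mem _
  obtain ⟨m, hm⟩ : ∃ m : ℕ, 2 * i = m + n := ⟨2 * i - n, by omega⟩
  set q : R0 C Y := pr hQ m with hq
  set ν : R0 C Y := q * ω * q with hν
  have hqq : q * q = q := Subtype.ext (by
    change Q m * Q m = Q m
    rw [hQ.mul_eq, if_pos rfl])
  have hνtr : Tr H ν := by
    apply tr_of_act
    intro l v hv
    have hpH : actH C Y H (q : Cor C Y) v = if l = m then v else 0 := hQ.actH_eq' m l hv
    change actH C Y H ((q : Cor C Y) * (ω : Cor C Y) * (q : Cor C Y)) v = 0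
    rw [map_mul, map_mul, Module.End.mul_apply, Module.End.mul_apply, hpH]
    split_ifs with hlm
    · rw [h0 v (by
        have : (2 * i - n : ℤ) = l := by
          rw [hlm]
          have : (2 * i : ℤ) = m + n := by exact_mod_cast hm
          omega
        rwa [this]), map_zero]
    · rw [map_zero, map_zero]
  obtain ⟨N, hN⟩ := hnil q hνtr
  have hstep : ∀ z ∈ ckFil C Q i n, actC C Y (Q m) (actC C Y ω z) =
      actC C Y (ν : Cor C Y) (actC C Y (Q m) z) := by
    intro z hz
    have hz' := (mem_fil hQ i n z).1 hz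
    have e1 : actC C Y (ν : Cor C Y) (actC C Y (Q m) z) =
        actC C Y (Q m) (actC C Y ω (actC C Y (Q m) z)) := by
      have e2 : (ν : Cor C Y) * Q m = Q m * (ω : Cor C Y) * Q m := by
        change Q m * (ω : Cor C Y) * Q m * Q m = _
        rw [mul_assoc _ (Q m) (Q m), hQ.mul_eq, if_pos rfl]
      rw [← actC_mul (H := H), e2, actC_mul (H := H), actC_mul (H := H)]
    rw [e1]
    conv_lhs => rw [sum_pr hQ z, map_sum, map_sum]
    rw [Finset.sum_eq_single m]
    · intro l _ hne
      rcases lt_or_gt_of_ne hne with h3 | h3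
      · have h4 := raise_zero h hQ h3 ω.2 hz'.1
        rw [actC_mul (H := H), actC_mul (H := H)] at h4
        exact h4
      · rw [hz'.2 l (by omega), map_zero, map_zero]
    · intro h3
      rw [Finset.mem_range] at h3
      rw [show Q m = 0 from hQ.out m (by omega), map_zero]
      rfl
  have hiter : ∀ t : ℕ, (actC C Y (ω : Cor C Y))^[t] y ∈ ckFil C Q i n ∧
      actC C Y (Q m) ((actC C Y (ω : Cor C Y))^[t] y) =
        actC C Y ((ν ^ t : R0 C Y) : Cor C Y) (actC C Y (Q m) y) := by
    intro t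
    induction t with
    | zero =>
      refine ⟨hy, ?_⟩
      rw [pow_zero]
      change _ = actC C Y 1 _
      rw [map_one]
      rfl
    | succ t ih =>
      rw [Function.iterate_succ_apply']
      refine ⟨stable_self h hQ ω.2 ih.1, ?_⟩
      rw [hstep _ ih.1, ih.2, pow_succ', ← actC_mul (H := H)]
      rfl
  have hid : ∀ t : ℕ, (actC C Y (ω : Cor C Y))^[t + 1] y = actC C Y ω y := by
    intro t
    induction t with
    | zero => rfl
    | succ t ih =>
      rw [Function.iterate_succ_apply', ih]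
      exact hidem y ((mem_fil hQ i n y).1 hy).1
  have h5 := (hiter (N + 1)).2
  rw [hid N, pow_succ, hN, zero_mul] at h5
  have h6 : actC C Y (Q m) (actC C Y ω y) = 0 := by
    rw [h5]
    change actC C Y 0 _ = 0
    rw [map_zero]
    rfl
  have h7 : actC C Y ω y ∈ ckFil C Q i n := stable_self h hQ ω.2 hy
  rw [mem_fil hQ] at h7 ⊢
  refine ⟨h7.1, fun l hl => ?_⟩
  by_cases hlm : l = m
  · rw [hlm]
    exact h6
  · exact h7.2 l (by omega)

variable {r : ℤ} {a : C.A (X.prod Y)} {b : C.A (Y.prod X)}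
  (ha : a ∈ C.gr (X.prod Y) (X.dim + r)) (hb : b ∈ C.gr (Y.prod X) (Y.dim + -r))

lemma act_psi (x : R0 C X) (y : C.A Y) :
    actC C Y (psi ha hb x) y = C.act a (actC C X x (C.act b y)) := by
  change C.act (toA (psi ha hb x)) y = _
  rw [toA_psi, C.act_comp, C.act_comp]
  rfl

lemma actH_psi (x : R0 C X) (v : H.A Y) :
    actH C Y H (psi ha hb x) v = H.act (H.cl a) (actH C X H x (H.act (H.cl b) v)) := by
  change H.act (H.cl (toA (psi ha hb x))) v = _
  rw [toA_psi, actH_comp, actH_comp]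
  rfl

/-- The filtration of `CH^j(X)` is the preimage of the filtration of `CH^(j+r)(Y)`. -/
theorem fil_iff (hnil : ∀ (q : R0 C Y) (x : R0 C X), Tr H (q * psi ha hb x * q) →
      IsNilpotent (q * psi ha hb x * q)) (h : MurreC H Y)
    {Q : ℕ → Cor C Y} (hQ : IsCK H Y Q) {w : R0 C X}
    (hw : ∀ (j : ℤ) (x : C.A X), x ∈ C.gr X j →
      actC C X (w * phi ha hb 1) x = x ∧ actC C X (phi ha hb 1 * w) x = x)
    {P : ℕ → Cor C X} (hP : IsCK H X P) {i j : ℕ} (hij : (i : ℤ) = j + r) (n : ℕ) {x : C.A X}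
    (hx : x ∈ C.gr X j) : x ∈ ckFil C P j n ↔ C.act a x ∈ ckFil C Q i n := by
  have hax : ∀ z ∈ C.gr X j, C.act a z ∈ C.gr Y i := fun z hz => by
    rw [hij]
    exact act_mem' C ha hz
  have hby : ∀ y ∈ C.gr Y i, C.act b y ∈ C.gr X j := fun y hy => by
    have h1 := act_mem' C hb hy
    rwa [hij, add_neg_cancel_right] at h1
  have hinv : ∀ z ∈ C.gr X j, actC C X (w : Cor C X) (C.act b (C.act a z)) = z := fun z hz => by
    rw [← act_U ha hb, ← actC_mul (H := H)]
    exact (hw j z hz).1
  let ω : ℕ → R0 C Y := fun l => psi ha hb (pr hP l * w)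
  have hω : ∀ l y, actC C Y (ω l) y =
      C.act a (actC C X (P l) (actC C X (w : Cor C X) (C.act b y))) := by
    intro l y
    rw [act_psi]
    change C.act a (actC C X (P l * (w : Cor C X)) _) = _
    rw [actC_mul (H := H)]
  have hωa : ∀ l, ∀ z ∈ C.gr X j, actC C Y (ω l) (C.act a z) = C.act a (actC C X (P l) z) := by
    intro l z hz
    rw [hω, hinv z hz]
  have hωi : ∀ l, ∀ y ∈ C.gr Y i, actC C Y (ω l) (actC C Y (ω l) y) = actC C Y (ω l) y := by
    intro l y hy
    rw [hω l y, hωa l _ (actC_mem (H := H) (hP.deg l) (actC_mem (H := H) w.2 (hby y hy))),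
      ← actC_mul (H := H), hP.mul_eq, if_pos rfl]
  have hωH : ∀ (l : ℕ) (m : ℤ), m ≠ l + 2 * r → ∀ v ∈ H.gr Y m, actH C Y H (ω l) v = 0 := by
    intro l m hm v hv
    rw [actH_psi]
    have h1 : H.act (H.cl b) v ∈ H.gr X (m + 2 * (-r)) := actH_mem H hb hv
    have h2 : actH C X H (w : Cor C X) (H.act (H.cl b) v) ∈ H.gr X (m + 2 * (-r)) :=
      actH_mem0 w.2 h1
    have h3 : actH C X H ((pr hP l * w : R0 C X) : Cor C X) (H.act (H.cl b) v) = 0 := by
      change actH C X H (P l * (w : Cor C X)) _ = 0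
      rw [map_mul, Module.End.mul_apply, hP.actH_eq' l _ h2, if_neg (by omega)]
    rw [h3]
    exact TheoryData.act_map_zero _ _
  have ha0 : ∀ z ∈ C.gr X j, C.act a z = 0 → z = 0 := by
    intro z hz h1
    rw [← hinv z hz, h1, TheoryData.act_map_zero, map_zero]
  have hij' : (2 * i : ℤ) = 2 * j + 2 * r := by omega
  constructor
  · intro hxf
    rw [mem_fil hP] at hxf
    have e1 : C.act a x = ∑ l ∈ Finset.range (2 * X.dim + 1), C.act a (actC C X (P l) x) := by
        conv_lhs => rw [sum_pr hP x, act_map_sum]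
    rw [e1]
    refine Submodule.sum_mem _ fun l _ => ?_
    by_cases hl : 2 * j + 1 - n ≤ l
    · rw [hxf.2 l hl, TheoryData.act_map_zero]
      exact Submodule.zero_mem _
    · have key : ∀ t : ℕ, t ≤ n → actC C Y (ω l) (C.act a x) ∈ ckFil C Q i t := by
        intro t
        induction t with
        | zero =>
          intro _
          rw [mem_fil hQ]
          have h1 : actC C Y (ω l) (C.act a x) ∈ C.gr Y i :=
            actC_mem (H := H) (ω l).2 (hax x hx)
          exact ⟨h1, fun m hm => act_gt h hQ (by omega) h1⟩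
        | succ t ih =>
          intro ht
          have h1 := next h hQ (ω l) (i := i) (n := t) (fun q => hnil q _) (hωH l _ (by omega)) (hωi l)
            (ih (by omega))
          rwa [hωi l _ (hax x hx)] at h1
      rw [← hωa l x hx]
      exact key n le_rfl
  · intro hxf
    rw [mem_fil hP]
    refine ⟨hx, fun l hl => ?_⟩
    have key : ∀ t : ℕ, actC C Y (ω l) (C.act a x) ∈ ckFil C Q i (n + t) := by
      intro t
      induction t with
      | zero => exact stable_self h hQ (ω l).2 hxf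
      | succ t ih =>
        have h1 := next h hQ (ω l) (i := i) (n := n + t) (fun q => hnil q _) (hωH l _ (by push_cast; omega))
          (hωi l) ih
        rwa [hωi l _ (hax x hx)] at h1
    have h1 := (mem_fil hQ i _ _).1 (key (2 * i + 1))
    have h2 : actC C Y (ω l) (C.act a x) = 0 := by
      rw [sum_pr hQ (actC C Y (ω l) (C.act a x))]
      exact Finset.sum_eq_zero fun l _ => h1.2 l (by omega)
    rw [hωa l x hx] at h2
    exact ha0 _ (actC_mem (H := H) (hP.deg l) hx) h2

/-- (C) for `X` follows from (C) for `Y`, if `b ∘ a` is injective on the Chow groups. -/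
theorem murreC_back (hnil : ∀ n : R0 C X, Tr H n → IsNilpotent (n * phi ha hb 1))
    (hnil' : ∀ (q : R0 C Y) (x : R0 C X), Tr H (q * psi ha hb x * q) →
      IsNilpotent (q * psi ha hb x * q)) (h : MurreC H Y)
    {Q : ℕ → Cor C Y} (hQ : IsCK H Y Q)
    (hm : ∀ v : H.A X, H.act (H.cl b) (H.act (H.cl a) v) = v)
    (hi : ∀ (j : ℤ) (x : C.A X), x ∈ C.gr X j → actC C X (phi ha hb 1) x = 0 → x = 0) :
    MurreC H X := by
  obtain ⟨w, hw⟩ := exists_inv ha hb hnil hm hi
  intro π π' hπ hπ' j n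
  ext x
  by_cases hx : x ∈ C.gr X j
  · by_cases hneg : (j : ℤ) + r < 0
    · have h1 : C.act a x = 0 := by
        have h2 := act_mem' C ha hx
        rw [C.gr_neg Y _ hneg, Submodule.mem_bot] at h2
        exact h2
      have h3 : x = 0 := hi j x hx (by rw [act_U, h1, TheoryData.act_map_zero])
      rw [h3]
      exact ⟨fun _ => Submodule.zero_mem _, fun _ => Submodule.zero_mem _⟩
    · obtain ⟨i, hi'⟩ := Int.eq_ofNat_of_zero_le (not_lt.1 hneg)
      rw [fil_iff ha hb hnil' h hQ hw (P := π) hπ hi'.symm n hx,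
        fil_iff ha hb hnil' h hQ hw (P := π') hπ' hi'.symm n hx]
  · exact ⟨fun h1 => absurd ((mem_fil (P := π) hπ j n x).1 h1).1 hx,
      fun h1 => absurd ((mem_fil (P := π') hπ' j n x).1 h1).1 hx⟩

end Pool.Agent.T9h37.HD
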