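import Pool.Agent.T9h37.MC.Conj
import Pool.Agent.T9h37.MC.Single

/-!
# Varieties whose cohomology is dominated by a variety with nilpotent homologically trivial
self-correspondences
-/

open CategoryTheory AlgebraicGeometry

set_option autoImplicit false

universe u v w

namespace Pool.Agent.T9h37.HD

open Pool.Agent.H914 Pool.Agent.H914.VarClass Pool.Agent.H914.VarClass.Obj Pool.Agent.W492.BB
  Pool.Agent.W550.Corr Pool.Agent.TH133 Pool.Agent.Y110 Pool.Agent.TH829.Kim Pool.Agent.T9h37.MC

set_option linter.unusedSectionVars false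

section Ring

variable {R : Type*} [Ring R] [Algebra ℚ R]

/-- Lifting of idempotents, inside the subring generated by the element. -/
lemma exists_idem {e : R} (he : IsNilpotent (e * e - e)) : ∃ E g c : R, E * E = E ∧
    E = g * e ∧ E = e * g ∧ E - e = (e * e - e) * c ∧ g * e = e * g ∧
      ∀ z : R, z * e = e * z → z * g = g * z := by
  obtain ⟨N, hN⟩ := he
  obtain ⟨φ, ⟨p, hp⟩, ⟨s, hs⟩⟩ := exists_poly N
  have hφ : φ = (1 + (Polynomial.X - 1) * s) * Polynomial.X := by
    have h1 : φ = Polynomial.X + (φ - Polynomial.X) := by ring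
    rw [h1, hs]
    ring
  have hφ' : φ = Polynomial.X * (1 + (Polynomial.X - 1) * s) := by
    rw [hφ, mul_comm]
  have hcom : ∀ (z : R) (q : Polynomial ℚ), z * e = e * z →
      z * Polynomial.aeval e q = Polynomial.aeval e q * z := by
    intro z q hz
    induction q using Polynomial.induction_on' with
    | add p q hp hq => rw [map_add, mul_add, add_mul, hp, hq]
    | monomial n t =>
      rw [Polynomial.aeval_monomial]
      have h2 : z * e ^ n = e ^ n * z := (Commute.pow_right hz n)
      rw [← mul_assoc, ← Algebra.commutes, mul_assoc, h2, mul_assoc]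
  refine ⟨Polynomial.aeval e φ, Polynomial.aeval e (1 + (Polynomial.X - 1) * s),
    Polynomial.aeval e s, ?_, ?_, ?_, ?_, ?_, fun z hz => hcom z _ hz⟩
  · have h1 := congrArg (Polynomial.aeval e) hp
    rw [map_sub, map_pow, map_mul, map_pow, map_sub, map_pow, Polynomial.aeval_X, sq e,
      pow_eq_zero_of_le (Nat.le_succ N) hN, zero_mul, sub_eq_zero, sq] at h1
    exact h1
  · have h1 := congrArg (Polynomial.aeval e) hφ
    rwa [map_mul, Polynomial.aeval_X] at h1
  · have h1 := congrArg (Polynomial.aeval e) hφ'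
    rwa [map_mul, Polynomial.aeval_X] at h1
  · have h1 := congrArg (Polynomial.aeval e) hs
    rw [map_sub, map_mul, map_sub, map_pow, Polynomial.aeval_X, sq] at h1
    exact h1
  · exact (hcom e _ rfl).symm

end Ring

section Maps

variable {k : Type u} [Field k] {𝒱 : VarClass k} {C : TheoryData.{u, v, 0} 𝒱 ℚ}
  [hC : IsChowProj C] {K : Type w} [Field K]
  {H : WeilTheoryData.{u, v, w} C K} [hH : IsWeilProj H] {X Y Z W : 𝒱.Obj}

section Chow

variable {r : ℤ} {a : C.A (X.prod Y)} {b : C.A (Y.prod X)}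
  (ha : a ∈ C.gr (X.prod Y) (X.dim + r)) (hb : b ∈ C.gr (Y.prod X) (Y.dim + -r))

include hC in
lemma comp_deg {r s : ℤ} {a : C.A (X.prod Y)} {b : C.A (Y.prod Z)}
    (ha : a ∈ C.gr (X.prod Y) (X.dim + r)) (hb : b ∈ C.gr (Y.prod Z) (Y.dim + s)) (t : ℤ)
    (h : r + s = t) : C.comp a b ∈ C.gr (X.prod Z) (X.dim + t) := h ▸ comp_mem C ha hb

/-- `s ↦ b ∘ s ∘ a` -/
noncomputable def phi (s : R0 C Y) : R0 C X :=
  ofA (C.comp (C.comp a (toA s)) b) (by
    have h := comp_deg (comp_deg ha (s := 0) (by rw [add_zero]; exact toA_mem s) r (by ring)) hb 0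
      (by ring)
    rwa [add_zero] at h)

/-- `x ↦ a ∘ x ∘ b` -/
noncomputable def psi (x : R0 C X) : R0 C Y :=
  ofA (C.comp (C.comp b (toA x)) a) (by
    have h := comp_deg (comp_deg hb (s := 0) (by rw [add_zero]; exact toA_mem x) (-r) (by ring)) ha 0
      (by ring)
    rwa [add_zero] at h)

lemma toA_phi (s : R0 C Y) : toA (phi ha hb s) = C.comp (C.comp a (toA s)) b := rfl
lemma toA_psi (x : R0 C X) : toA (psi ha hb x) = C.comp (C.comp b (toA x)) a := rfl

lemma phi_mul (s t : R0 C Y) (x : R0 C X) :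
    phi ha hb s * x * phi ha hb t = phi ha hb (s * psi ha hb x * t) := by
  apply toA_inj
  simp only [toA_mul, toA_phi, toA_psi, comp_assoc]

lemma psi_zero_of {x : R0 C X} (hx : H.cl (toA x) = 0) : H.cl (toA (psi ha hb x)) = 0 := by
  rw [toA_psi, cl_comp, cl_comp, hx, comp_zero, zero_comp]

/-- Homologically trivial self-correspondences of `X` become nilpotent after composition with
`b ∘ a`. -/
lemma nil_mul (hnil : ∀ s : R0 C Y, H.cl (toA s) = 0 → IsNilpotent s) {n : R0 C X}
    (hn : H.cl (toA n) = 0) : IsNilpotent (n * phi ha hb 1) := by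
  obtain ⟨N, hN⟩ := hnil (psi ha hb n) (psi_zero_of ha hb hn)
  have h1 : ∀ k : ℕ, (n * phi ha hb 1) ^ (k + 1) = n * phi ha hb (psi ha hb n ^ k) := by
    intro k
    induction k with
    | zero => rw [zero_add, pow_one, pow_zero]
    | succ k ih =>
      rw [pow_succ, ih]
      calc n * phi ha hb (psi ha hb n ^ k) * (n * phi ha hb 1)
          = n * (phi ha hb (psi ha hb n ^ k) * n * phi ha hb 1) := by simp only [mul_assoc]
        _ = _ := by rw [phi_mul, mul_one, ← pow_succ]
  refine ⟨N + 1, ?_⟩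
  rw [h1, hN]
  have h2 : phi ha hb (0 : R0 C Y) = 0 := by
    apply toA_inj
    rw [toA_phi, map_zero, map_zero, comp_zero, zero_comp]
  rw [h2, mul_zero]

end Chow

end Maps

end Pool.Agent.T9h37.HD
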