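import Pool.Agent.T9h37.HD.Back

/-!
# Existence of Chow-Kunneth decompositions, summands
-/

open CategoryTheory AlgebraicGeometry

set_option autoImplicit false

universe u v w

namespace Pool.Agent.T9h37.HD

open Pool.Agent.H914 Pool.Agent.H914.VarClass Pool.Agent.H914.VarClass.Obj Pool.Agent.W492.BB
  Pool.Agent.W550.Corr Pool.Agent.TH133 Pool.Agent.Y110 Pool.Agent.TH829.Kim Pool.Agent.T9h37.MC

set_option linter.unusedSectionVars false

variable {k : Type u} [Field k] {𝒱 : VarClass k} {C : TheoryData.{u, v, 0} 𝒱 ℚ}
  [hC : IsChowProj C] {K : Type w} [Field K]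
  {H : WeilTheoryData.{u, v, w} C K} [hH : IsWeilProj H] {X Y Z W : 𝒱.Obj}

section Lift

variable {E : R0 C X} (hE : IsIdempotentElem E) (hE1 : Tr H (1 - E))

include hE1 in
lemma act_E (v : H.A X) : actH C X H E v = v := by
  have h1 := hE1.act v
  have h2 : ((1 - E : R0 C X) : Cor C X) = 1 - (E : Cor C X) := rfl
  rw [h2, map_sub, LinearMap.sub_apply, sub_eq_zero, map_one] at h1
  exact h1.symm

/-- The action of the corner ring on the cohomology. -/
noncomputable def cornerHom : hE.Corner →+* Module.End K (H.A X) where
  toFun x := actH C X H ((x.1 : R0 C X) : Cor C X)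
  map_one' := LinearMap.ext fun v => act_E hE1 v
  map_mul' x y := by
    have h : (((x * y).1 : R0 C X) : Cor C X) = (x.1 : R0 C X) * (y.1 : R0 C X) := rfl
    rw [h, map_mul]
  map_zero' := by
    have h : (((0 : hE.Corner).1 : R0 C X) : Cor C X) = 0 := rfl
    rw [h, map_zero]
  map_add' x y := by
    have h : (((x + y).1 : R0 C X) : Cor C X) = (x.1 : R0 C X) + (y.1 : R0 C X) := rfl
    rw [h, map_add]

include hE hE1 in
/-- Algebraic Kunneth projectors can be lifted to a Chow-Kunneth decomposition, if the
homologically trivial elements of a corner ring are nilpotent. -/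
theorem exists_ck (hnil : ∀ n : R0 C X, Tr H n → n * E = n → IsNilpotent n) (κ : ℕ → R0 C X)
    (hκ : ∀ (i : ℕ) (m : ℤ) (v : H.A X), v ∈ H.gr X m →
      actH C X H (κ i) v = if m = i then v else 0) :
    ∃ P : ℕ → Cor C X, IsCK H X P := by
  classical
  let f := cornerHom (H := H) hE hE1
  have hf : ∀ x : hE.Corner, f x = actH C X H ((x.1 : R0 C X) : Cor C X) := fun _ => rfl
  have hpow : ∀ (x : hE.Corner) (n : ℕ), ((x ^ (n + 1)).1 : R0 C X) = (x.1 : R0 C X) ^ (n + 1) := by
    intro x n
    induction n with
    | zero => rw [zero_add, pow_one, pow_one]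
    | succ n ih =>
      rw [pow_succ, pow_succ _ (n + 1), ← ih]
      rfl
  have hker : ∀ x ∈ RingHom.ker f, IsNilpotent x := by
    intro x hx
    rw [RingHom.mem_ker, hf] at hx
    have h1 : Tr H (x.1 : R0 C X) := tr_of_act fun m v _ => by rw [hx]; rfl
    obtain ⟨N, hN⟩ := hnil _ h1 ((Subsemigroup.mem_corner_iff hE).1 x.2).2
    refine ⟨N + 1, Subtype.ext ?_⟩
    rw [hpow, pow_succ, hN, zero_mul]
    rfl
  let D : ℕ := 2 * X.dim + 1
  let e : Fin D → Module.End K (H.A X) := fun i => actH C X H ((κ i.1 : R0 C X) : Cor C X)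
  have he : CompleteOrthogonalIdempotents e := by
    constructor
    · rw [OrthogonalIdempotents.iff_mul_eq]
      intro i j
      apply ext_gr H
      intro m v hv
      rw [Module.End.mul_apply]
      change actH C X H _ (actH C X H _ v) = _
      rw [hκ j.1 m v hv]
      by_cases hmj : m = (j.1 : ℤ)
      · rw [if_pos hmj, hκ i.1 m v hv]
        by_cases hij : i = j
        · subst hij
          rw [if_pos hmj, if_pos rfl]
          change v = actH C X H _ v
          rw [hκ i.1 m v hv, if_pos hmj]
        · rw [if_neg (fun h => hij (Fin.ext (by omega))), if_neg hij]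
          rfl
      · rw [if_neg hmj, map_zero]
        by_cases hij : i = j
        · subst hij
          rw [if_pos rfl]
          change 0 = actH C X H _ v
          rw [hκ i.1 m v hv, if_neg hmj]
        · rw [if_neg hij]
          rfl
    · apply ext_gr H
      intro m v hv
      rw [LinearMap.sum_apply]
      have h1 : ∀ i : Fin D, e i v = if m = (i.1 : ℤ) then v else 0 := fun i => hκ i.1 m v hv
      simp only [h1]
      by_cases hv0 : v = 0
      · rw [hv0]
        simp
      · have h2 : 0 ≤ m := nonneg_of_mem H hv hv0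
        have h3 : m ≤ 2 * X.dim := by
          by_contra h
          have h4 := gr_top H (X := X) (i := m) (by omega)
          rw [h4] at hv
          exact hv0 ((Submodule.mem_bot _).1 hv)
        obtain ⟨q, rfl⟩ := Int.eq_ofNat_of_zero_le h2
        rw [Finset.sum_eq_single (⟨q, by simp only [D]; omega⟩ : Fin D)]
        · simp
        · intro i _ hi
          rw [if_neg]
          intro h
          exact hi (Fin.ext (by simpa using h.symm))
        · intro h
          exact absurd (Finset.mem_univ _) h
  have hrange : ∀ i, e i ∈ f.range := by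
    intro i
    let x0 : hE.Corner := ⟨E * κ i.1 * E, ⟨κ i.1, rfl⟩⟩
    refine ⟨x0, ?_⟩
    apply LinearMap.ext
    intro v
    change actH C X H ((E : Cor C X) * (κ i.1 : Cor C X) * (E : Cor C X)) v = actH C X H _ v
    rw [map_mul, map_mul, Module.End.mul_apply, Module.End.mul_apply, act_E hE1, act_E hE1]
  obtain ⟨e', he', hfe⟩ := CompleteOrthogonalIdempotents.lift_of_isNilpotent_ker f hker he hrange
  have hmul : ∀ i j : Fin D, ((e' i).1 : R0 C X) * (e' j).1 = if i = j then (e' i).1 else 0 := by
    intro i j
    have h1 := congrArg Subtype.val (he'.toOrthogonalIdempotents.mul_eq i j)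
    by_cases hij : i = j
    · rw [if_pos hij] at h1 ⊢
      exact h1
    · rw [if_neg hij] at h1 ⊢
      exact h1
  have hsum : ∑ i : Fin D, ((e' i).1 : R0 C X) = E := by
    have h1 := he'.complete
    have h2 : ∀ s : Finset (Fin D), ((∑ i ∈ s, e' i : hE.Corner).1 : R0 C X) =
        ∑ i ∈ s, ((e' i).1 : R0 C X) := by
      intro s
      induction s using Finset.induction_on with
      | empty => rfl
      | insert i s hi ih =>
        rw [Finset.sum_insert hi, Finset.sum_insert hi, ← ih]
        rfl
    rw [← h2, h1]
    rfl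
  have hEl : ∀ i, E * ((e' i).1 : R0 C X) = (e' i).1 := fun i =>
    ((Subsemigroup.mem_corner_iff hE).1 (e' i).2).1
  have hEr : ∀ i, ((e' i).1 : R0 C X) * E = (e' i).1 := fun i =>
    ((Subsemigroup.mem_corner_iff hE).1 (e' i).2).2
  have hact : ∀ (i : Fin D) (m : ℤ) (v : H.A X), v ∈ H.gr X m →
      actH C X H ((e' i).1 : R0 C X) v = if m = (i.1 : ℤ) then v else 0 := by
    intro i m v hv
    have h1 := congrFun hfe i
    have h2 : actH C X H (((e' i).1 : R0 C X) : Cor C X) = e i := h1
    rw [h2]
    exact hκ i.1 m v hv
  -- the decomposition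
  let p : ℕ → R0 C X := fun i =>
    if h : i < D then (e' ⟨i, h⟩).1 + (if i = 0 then 1 - E else 0) else 0
  have hEE : E * E = E := hE
  have hp : ∀ (i : ℕ) (h : i < D), p i = (e' ⟨i, h⟩).1 + (if i = 0 then 1 - E else 0) := by
    intro i h
    simp only [p]
    rw [dif_pos h]
  have hp0 : ∀ i : ℕ, ¬ i < D → p i = 0 := by
    intro i h
    simp only [p]
    rw [dif_neg h]
  have hpm : ∀ i j : ℕ, p i * p j = if i = j then p i else 0 := by
    intro i j
    by_cases hi : i < D
    · by_cases hj : j < D
      · rw [hp i hi, hp j hj, add_mul, mul_add, mul_add, hmul]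
        have h1 : ((e' ⟨i, hi⟩).1 : R0 C X) * (if j = 0 then 1 - E else 0) = 0 := by
          split_ifs
          · rw [mul_sub, mul_one, hEr, sub_self]
          · rw [mul_zero]
        have h2 : (if i = 0 then 1 - E else 0) * ((e' ⟨j, hj⟩).1 : R0 C X) = 0 := by
          split_ifs
          · rw [sub_mul, one_mul, hEl, sub_self]
          · rw [zero_mul]
        have h3 : (1 - E) * (1 - E) = 1 - E := by
          rw [mul_sub, mul_one, sub_mul, one_mul, hEE, sub_self, sub_zero]
        rw [h1, h2, add_zero, zero_add]
        by_cases hij : i = j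
        · subst hij
          rw [if_pos rfl, if_pos rfl]
          split_ifs
          · rw [h3]
          · rw [mul_zero]
        · rw [if_neg (fun h => hij (congrArg Fin.val h)), if_neg hij, zero_add]
          split_ifs with h4 h5
          · exact absurd (h4.trans h5.symm) hij
          · rw [mul_zero]
          · rw [zero_mul]
          · rw [zero_mul]
      · rw [hp0 j hj, mul_zero, if_neg (fun h => hj (by rw [← h]; exact hi))]
    · rw [hp0 i hi, zero_mul]
      split_ifs <;> rfl
  refine ⟨fun i => (p i : Cor C X), isCK_of (fun i => (p i).2) (fun i hi => ?_)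
    (fun i j => ?_) ?_ (fun i m v hv => ?_)⟩
  · rw [hp0 i (by simp only [D]; omega)]
    rfl
  · have h1 := congrArg Subtype.val (hpm i j)
    rw [apply_ite Subtype.val] at h1
    exact h1
  · have h1 : ∑ i ∈ Finset.range D, p i = 1 := by
      have h2 : ∑ i ∈ Finset.range D, p i = ∑ i : Fin D, p i.1 :=
        (Finset.sum_range _)
      rw [h2]
      have h3 : ∀ i : Fin D, p i.1 = (e' i).1 + (if i.1 = 0 then 1 - E else 0) := fun i =>
        hp i.1 i.2
      simp only [h3]
      rw [Finset.sum_add_distrib, hsum]
      have h4 : ∑ i : Fin D, (if i.1 = 0 then 1 - E else 0) = 1 - E := by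
        rw [Finset.sum_eq_single (⟨0, by simp only [D]; omega⟩ : Fin D)]
        · simp
        · intro i _ hi
          rw [if_neg]
          intro h
          exact hi (Fin.ext h)
        · intro h
          exact absurd (Finset.mem_univ _) h
      rw [h4, add_sub_cancel]
    have h2 : (cor0 C X).val (∑ i ∈ Finset.range D, p i) =
        ∑ i ∈ Finset.range D, (cor0 C X).val (p i) := map_sum _ _ _
    exact h2.symm.trans (congrArg (cor0 C X).val h1)
  · by_cases hi : i < D
    · rw [hp i hi]
      change actH C X H (((e' ⟨i, hi⟩).1 : R0 C X) +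
        (((if i = 0 then 1 - E else 0 : R0 C X)) : Cor C X)) v = _
      rw [map_add, LinearMap.add_apply, hact ⟨i, hi⟩ m v hv]
      have h1 : actH C X H (((if i = 0 then 1 - E else 0 : R0 C X)) : Cor C X) v = 0 := by
        split_ifs
        · exact hE1.act v
        · change actH C X H 0 v = 0
          rw [map_zero]
          rfl
      rw [h1, add_zero]
    · rw [hp0 i hi]
      have h1 : actH C X H ((0 : R0 C X) : Cor C X) v = 0 := by
        change actH C X H 0 v = 0
        rw [map_zero]
        rfl
      rw [h1]
      split_ifs with h2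
      · by_contra h3
        have h4 := gr_top H (X := X) (i := m) (by simp only [D] at hi; omega)
        rw [h4] at hv
        exact h3 ((Submodule.mem_bot _).1 hv).symm
      · rfl

end Lift

end Pool.Agent.T9h37.HD
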