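import Pool.Agent.TH133.Defs

/-!
# Homological domination: definitions
-/

set_option autoImplicit false

open Pool.Agent.H914 Pool.Agent.H914.VarClass Pool.Agent.H914.VarClass.Obj Pool.Agent.W492.BB
  Pool.Agent.TH133

universe u v w

namespace Pool.Agent.T9h37.HD

variable {k : Type u} [Field k] {𝒱 : VarClass k} {C : TheoryData.{u, v, 0} 𝒱 ℚ} {K : Type w}
  [Field K] (H : WeilTheoryData.{u, v, w} C K) {X Y : 𝒱.Obj}

/-- `b ∘ a` is the identity of `H^m(X)`. -/
def IdInDegree (a : C.A (X.prod Y)) (b : C.A (Y.prod X)) (m : ℤ) : Prop :=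
  ∀ v : H.A X, H.Deg m v → H.act (H.cl b) (H.act (H.cl a) v) = v

/-- `b ∘ a` is the identity of the cohomology of `X`. -/
def IdOnCohomology (a : C.A (X.prod Y)) (b : C.A (Y.prod X)) : Prop :=
  ∀ v : H.A X, H.act (H.cl b) (H.act (H.cl a) v) = v

/-- `X` has a Chow-Kunneth decomposition. -/
def HasDecomposition (X : 𝒱.Obj) : Prop := ∃ π : ℕ → C.A (X.prod X), IsCK H X π

variable (C)

/-- The group `CH^e(Y)` is zero. -/
def NoCycles (Y : 𝒱.Obj) (e : ℤ) : Prop := ∀ y : C.A Y, C.Deg e y → y = 0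

/-- The correspondence `p` acts as zero on `CH^j(X)`. -/
def Kills (p : C.A (X.prod X)) (j : ℕ) : Prop := ∀ x : C.A X, C.Deg j x → C.act p x = 0

/-- The correspondence `γ` is injective on `CH^j(X)` for all `j`. -/
def InjectiveOnChow (γ : C.A (X.prod Y)) : Prop :=
  ∀ (j : ℕ) (x : C.A X), C.Deg j x → C.act γ x = 0 → x = 0

/-- The correspondence `γ` of degree `r` maps `CH^j(X)` onto `CH^(j+r)(Y)` for all `j`. -/
def SurjectiveOnChow (γ : C.A (X.prod Y)) (r : ℤ) : Prop :=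
  ∀ (j : ℤ) (y : C.A Y), C.Deg (j + r) y → ∃ x : C.A X, C.Deg j x ∧ C.act γ x = y

/-- `p ∘ γ` is bijective on `p CH^j(X)`, where `p` is an idempotent. -/
def BijectiveOnComponent (p γ : C.A (X.prod X)) (j : ℕ) : Prop :=
  ∀ x : C.A X, C.Deg j x →
    (C.act p (C.act γ (C.act p x)) = 0 → C.act p x = 0) ∧
    ∃ z : C.A X, C.Deg j z ∧ C.act p (C.act γ (C.act p z)) = C.act p x

/-- The self-correspondences of degree zero never raise the weights on the Chow groups: `π_m` acts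
as zero on `CH^j(X)` for `m > 2 j`, and `π_t ∘ Γ ∘ π_s` acts as zero for `s < t`. -/
def NeverRaises (π : ℕ → C.A (X.prod X)) : Prop :=
  (∀ j m : ℕ, 2 * j < m → Kills C (π m) j) ∧
  ∀ s t : ℕ, s < t → ∀ Γ : C.A (X.prod X), C.Deg X.dim Γ → ∀ (j : ℕ) (x : C.A X), C.Deg j x →
    C.act (π t) (C.act Γ (C.act (π s) x)) = 0

end Pool.Agent.T9h37.HD
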