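import Pool.Agent.T9h37.HD.CK

/-!
# Homological domination: summary
-/

open CategoryTheory AlgebraicGeometry

set_option autoImplicit false

universe u v w

namespace Pool.Agent.T9h37.HD

open Pool.Agent.H914 Pool.Agent.H914.VarClass Pool.Agent.H914.VarClass.Obj Pool.Agent.W492.BB
  Pool.Agent.W550.Corr Pool.Agent.TH133 Pool.Agent.Y110 Pool.Agent.TH829.Kim Pool.Agent.T9h37.MC

set_option linter.unusedSectionVars false

variable {k : Type u} [Field k] {𝒱 : VarClass k} {C : TheoryData.{u, v, 0} 𝒱 ℚ}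
  [hC : IsChowProj C] {K : Type w} [Field K]
  {H : WeilTheoryData.{u, v, w} C K} [hH : IsWeilProj H] {X Y Z W : 𝒱.Obj}

variable (H) in
/-- Homologically trivial self-correspondences of degree zero are nilpotent. -/
def Nil (X : 𝒱.Obj) : Prop := ∀ x : R0 C X, Tr H x → IsNilpotent x

lemma nil_of_kimura (h : IsKimuraFinite C (ratFam C) X) : Nil H X := fun _ hx =>
  isNilpotent_of_kimura (H := H) h hx

section

variable {r : ℤ} {a : C.A (X.prod Y)} {b : C.A (Y.prod X)}
  (ha : a ∈ C.gr (X.prod Y) (X.dim + r)) (hb : b ∈ C.gr (Y.prod X) (Y.dim + -r))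

lemma psi_mul (x y : R0 C X) (s : R0 C Y) :
    psi ha hb x * s * psi ha hb y = psi ha hb (x * phi ha hb s * y) := by
  apply toA_inj
  simp only [toA_mul, toA_phi, toA_psi, comp_assoc]

lemma phi_tr {s : R0 C Y} (hs : Tr H s) : Tr H (phi ha hb s) := by
  unfold Tr at *
  rw [toA_phi, cl_comp, cl_comp, hs, comp_zero, zero_comp]

lemma star1 (hK : Nil H X ∨ Nil H Y) (n : R0 C X) (hn : Tr H n) :
    IsNilpotent (n * phi ha hb 1) := by
  rcases hK with h | h
  · exact h _ (hn.mul_right _)
  · exact nil_mul (H := H) ha hb h hn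

lemma star2 (hK : Nil H X ∨ Nil H Y) (q : R0 C Y) (x : R0 C X)
    (hn : Tr H (q * psi ha hb x * q)) : IsNilpotent (q * psi ha hb x * q) := by
  rcases hK with h | h
  · have h1 : (phi ha hb (q * q) * x) * (phi ha hb (q * q) * x) =
        phi ha hb (q * (q * psi ha hb x * q) * q) * x := by
      calc (phi ha hb (q * q) * x) * (phi ha hb (q * q) * x)
          = (phi ha hb (q * q) * x * phi ha hb (q * q)) * x := by simp only [mul_assoc]
        _ = _ := by
          rw [phi_mul]
          simp only [mul_assoc]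
    have h2 : IsNilpotent ((phi ha hb (q * q) * x) ^ 2) := by
      rw [sq, h1]
      exact h _ ((phi_tr ha hb ((hn.mul_left q).mul_right q)).mul_right x)
    obtain ⟨N, hN⟩ : IsNilpotent (phi ha hb (q * q) * x) := by
      obtain ⟨M, hM⟩ := h2
      exact ⟨2 * M, by rw [pow_mul]; exact hM⟩
    have h3 : ∀ t : ℕ, (q * psi ha hb x * q) ^ (t + 1) =
        q * psi ha hb (x * (phi ha hb (q * q) * x) ^ t) * q := by
      intro t
      induction t with
      | zero => rw [zero_add, pow_one, pow_zero, mul_one]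
      | succ t ih =>
        rw [pow_succ, ih]
        calc q * psi ha hb (x * (phi ha hb (q * q) * x) ^ t) * q * (q * psi ha hb x * q)
            = q * (psi ha hb (x * (phi ha hb (q * q) * x) ^ t) * (q * q) * psi ha hb x) * q := by
              simp only [mul_assoc]
          _ = q * psi ha hb (x * (phi ha hb (q * q) * x) ^ t * phi ha hb (q * q) * x) * q := by
              rw [psi_mul]
          _ = _ := by
              rw [pow_succ (phi ha hb (q * q) * x) t]
              simp only [mul_assoc]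
    refine ⟨N + 1, ?_⟩
    rw [h3, hN, mul_zero]
    have h4 : psi ha hb (0 : R0 C X) = 0 := by
      apply toA_inj
      rw [toA_psi, map_zero, map_zero, comp_zero, zero_comp]
    rw [h4, mul_zero, zero_mul]
  · exact h _ hn

section one

variable (hm : ∀ v : H.A X, H.act (H.cl b) (H.act (H.cl a) v) = v)

include hm in
lemma tr_one_sub : Tr H (1 - phi ha hb 1 : R0 C X) := by
  apply tr_of_act
  intro l v _
  change actH C X H (1 - ((phi ha hb 1 : R0 C X) : Cor C X)) v = 0
  rw [map_sub, LinearMap.sub_apply, actH_U, hm, map_one]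
  exact sub_self _

include hm in
lemma exists_E (hK : Nil H X ∨ Nil H Y) : ∃ E g : R0 C X, IsIdempotentElem E ∧ Tr H (1 - E) ∧
    E = g * phi ha hb 1 ∧ ∀ n : R0 C X, Tr H n → n * E = n → IsNilpotent n := by
  have hn := tr_one_sub ha hb hm
  have h1 : IsNilpotent (phi ha hb 1 * phi ha hb 1 - phi ha hb 1 : R0 C X) := by
    have h2 := (star1 ha hb hK _ hn).neg
    have h3 : -((1 - phi ha hb 1) * phi ha hb 1) = (phi ha hb 1 * phi ha hb 1 - phi ha hb 1 :
        R0 C X) := by
      rw [sub_mul, one_mul]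
      abel
    rwa [h3] at h2
  obtain ⟨E, g, c, hEE, hE1, -, hE3, -, -⟩ := exists_idem h1
  refine ⟨E, g, hEE, ?_, hE1, fun n hn' hnE => ?_⟩
  · have h4 : (1 - E : R0 C X) = (1 - phi ha hb 1) * (1 + phi ha hb 1 * c) := by
      have h5 : E = phi ha hb 1 + (phi ha hb 1 * phi ha hb 1 - phi ha hb 1) * c := by
        rw [← hE3]
        abel
      rw [h5]
      noncomm_ring
    rw [h4]
    exact hn.mul_right _
  · have h4 := star1 ha hb hK (n * g) (hn'.mul_right g)
    rwa [mul_assoc, ← hE1, hnE] at h4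

include ha hb hm in
/-- `X` has a Chow-Kunneth decomposition if `Y` has. -/
theorem hasCK (hK : Nil H X ∨ Nil H Y) (hY : HasCK H Y) : HasCK H X := by
  obtain ⟨Q, hQ⟩ := hY
  obtain ⟨E, g, hE, hE1, -, hnil⟩ := exists_E ha hb hm hK
  have hQ' : IsCK (C := C) H Y (Q : ℕ → Cor C Y) := hQ
  let κ : ℕ → R0 C X := fun i =>
    if 0 ≤ (i : ℤ) + 2 * r then phi ha hb (pr hQ' ((i : ℤ) + 2 * r).toNat) else 0
  obtain ⟨P, hP⟩ := exists_ck (H := H) hE hE1 hnil κ (by
    intro i m v hv
    have h1 : H.act (H.cl a) v ∈ H.gr Y (m + 2 * r) := actH_mem H ha hv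
    by_cases hi : 0 ≤ (i : ℤ) + 2 * r
    · have h2 : κ i = phi ha hb (pr hQ' ((i : ℤ) + 2 * r).toNat) := if_pos hi
      rw [h2]
      change H.act (H.cl (toA (phi ha hb _))) v = _
      rw [toA_phi, actH_comp, actH_comp]
      have h3 : H.act (H.cl (toA (pr hQ' ((i : ℤ) + 2 * r).toNat))) (H.act (H.cl a) v) =
          if m + 2 * r = ((((i : ℤ) + 2 * r).toNat : ℕ) : ℤ) then H.act (H.cl a) v else 0 :=
        hQ'.actH_eq' _ _ h1
      rw [h3]
      by_cases hmi : m = i
      · rw [if_pos hmi, if_pos (by omega), hm]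
      · rw [if_neg hmi, if_neg (by omega)]
        exact TheoryData.act_map_zero _ _
    · have h2 : κ i = 0 := if_neg hi
      rw [h2]
      change actH C X H 0 v = _
      rw [map_zero]
      split_ifs with hmi
      · by_contra h3
        have h4 : H.act (H.cl a) v = 0 := by
          by_contra h5
          exact absurd (nonneg_of_mem H h1 h5) (by omega)
        apply h3
        rw [← hm v, h4, TheoryData.act_map_zero]
        rfl
      · rfl)
  exact ⟨P, hP⟩

include ha hb hm in
/-- If `X` has no phantoms, then `X` is a direct summand. -/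
theorem summand (hK : Nil H X ∨ Nil H Y) (hX : NoPhantoms H X) :
    ∃ b' : C.A (Y.prod X), b' ∈ C.gr (Y.prod X) (Y.dim + -r) ∧ C.comp a b' = dg C X := by
  obtain ⟨E, g, hE, hE1, hEg, -⟩ := exists_E ha hb hm hK
  have hEE : E * E = E := hE
  have h1 : toA (1 - E) = 0 := by
    refine hX (toA (1 - E)) (toA_mem _) ?_ hE1
    rw [← toA_mul]
    congr 1
    rw [mul_sub, mul_one, sub_mul, one_mul, hEE, sub_self, sub_zero]
  refine ⟨C.comp b (toA g), ?_, ?_⟩
  · exact comp_deg hb (s := 0) (by rw [add_zero]; exact toA_mem g) (-r) (by ring)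
  · have h2 : toA E = dg C X := by
      rw [map_sub, toA_one, sub_eq_zero] at h1
      exact h1.symm
    rw [← h2, hEg, toA_mul, toA_phi, toA_one, comp_dg, comp_assoc]

include hm in
lemma inj_of_nil (hX : Nil H X) (x : C.A X)
    (h0 : actC C X (phi ha hb 1 : R0 C X) x = 0) : x = 0 := by
  obtain ⟨N, hN⟩ := hX _ (tr_one_sub ha hb hm)
  have h1 := geom_sum_mul_neg (1 - phi ha hb 1 : R0 C X) N
  rw [hN, sub_zero, sub_sub_cancel] at h1
  have h2 : actC C X (((∑ i ∈ Finset.range N, (1 - phi ha hb 1) ^ i) * phi ha hb 1 : R0 C X) :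
      Cor C X) x = x := by
    rw [h1]
    change actC C X 1 x = x
    rw [map_one]
    rfl
  rw [← h2]
  change actC C X (_ * ((phi ha hb 1 : R0 C X) : Cor C X)) x = 0
  rw [actC_mul (H := H), h0, map_zero]

end one

end

end Pool.Agent.T9h37.HD
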