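import Pool.Agent.T9h37.HD.Base

/-!
# Murre's conjecture (C) and homological domination
-/

open CategoryTheory AlgebraicGeometry

set_option autoImplicit false

universe u v w

namespace Pool.Agent.T9h37.HD

open Pool.Agent.H914 Pool.Agent.H914.VarClass Pool.Agent.H914.VarClass.Obj Pool.Agent.W492.BB
  Pool.Agent.W550.Corr Pool.Agent.TH133 Pool.Agent.Y110 Pool.Agent.TH829.Kim Pool.Agent.T9h37.MC

set_option linter.unusedSectionVars false

variable {k : Type u} [Field k] {𝒱 : VarClass k} {C : TheoryData.{u, v, 0} 𝒱 ℚ}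
  [hC : IsChowProj C] {K : Type w} [Field K]
  {H : WeilTheoryData.{u, v, w} C K} [hH : IsWeilProj H] {X Y Z W : 𝒱.Obj}

section Ideal

variable (H) in
/-- `x` is homologically trivial. -/
def Tr (x : R0 C X) : Prop := H.cl (toA x) = 0

lemma Tr.mul_left {x : R0 C X} (hx : Tr H x) (y : R0 C X) : Tr H (y * x) := by
  unfold Tr at *
  rw [toA_mul, cl_comp, hx, zero_comp]

lemma Tr.mul_right {x : R0 C X} (hx : Tr H x) (y : R0 C X) : Tr H (x * y) := by
  unfold Tr at *
  rw [toA_mul, cl_comp, hx, comp_zero]

lemma Tr.add {x y : R0 C X} (hx : Tr H x) (hy : Tr H y) : Tr H (x + y) := by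
  unfold Tr at *
  rw [map_add, map_add, hx, hy, add_zero]

lemma Tr.neg {x : R0 C X} (hx : Tr H x) : Tr H (-x) := by
  unfold Tr at *
  rw [map_neg, map_neg, hx, neg_zero]

lemma Tr.sub {x y : R0 C X} (hx : Tr H x) (hy : Tr H y) : Tr H (x - y) := by
  rw [sub_eq_add_neg]
  exact hx.add hy.neg

lemma tr_of_act {x : R0 C X} (h : ∀ (m : ℤ) (v : H.A X), v ∈ H.gr X m →
    actH C X H x v = 0) : Tr H x := by
  have h1 : actH C X H x = 0 := ext_gr H _ _ h
  apply hom_zero_of_act
  intro v
  exact LinearMap.congr_fun h1 v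

lemma Tr.act {x : R0 C X} (h : Tr H x) (v : H.A X) : actH C X H x v = 0 :=
  actH_zero_of_cl h v

end Ideal

variable {r : ℤ} {a : C.A (X.prod Y)} {b : C.A (Y.prod X)}
  (ha : a ∈ C.gr (X.prod Y) (X.dim + r)) (hb : b ∈ C.gr (Y.prod X) (Y.dim + -r))

lemma act_U (x : C.A X) : actC C X (phi ha hb 1) x = C.act b (C.act a x) := by
  change C.act (toA (phi ha hb 1)) x = _
  rw [toA_phi, toA_one, comp_dg, C.act_comp]

lemma actH_U (v : H.A X) :
    actH C X H (phi ha hb 1) v = H.act (H.cl b) (H.act (H.cl a) v) := by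
  change H.act (H.cl (toA (phi ha hb 1))) v = _
  rw [toA_phi, toA_one, comp_dg, actH_comp]

/-- The Chow-Kunneth projector, in the ring of correspondences of degree zero. -/
def pr {P : ℕ → Cor C X} (hP : IsCK H X P) (m : ℕ) : R0 C X := ⟨P m, hP.deg m⟩

/-- On the Chow groups the `m`-th component of `b ∘ a` is invertible on `h^m(X)`, if `b ∘ a` is the
identity of `H^m(X)`. -/
theorem block (hnil : ∀ n : R0 C X, Tr H n → IsNilpotent (n * phi ha hb 1)) (h : MurreC H X)
    {P : ℕ → Cor C X} (hP : IsCK H X P) (m : ℕ)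
    (hm : ∀ v ∈ H.gr X m, H.act (H.cl b) (H.act (H.cl a) v) = v) :
    ∃ g : R0 C X, ∀ (j : ℕ) (x : C.A X), x ∈ C.gr X j →
      actC C X (P m) x = actC C X (P m * phi ha hb 1 * P m * g) x ∧
      actC C X (P m) x = actC C X (g * (P m * phi ha hb 1 * P m)) x := by
  set p : R0 C X := pr hP m with hp
  set U : R0 C X := phi ha hb 1 with hU
  have hpp : p * p = p := Subtype.ext (by
    change P m * P m = P m
    rw [hP.mul_eq, if_pos rfl])
  set e : R0 C X := p * U * p with he
  have hpe : p * e = e := by rw [he, ← mul_assoc, ← mul_assoc, hpp]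
  have hep : e * p = e := by rw [he, mul_assoc, hpp]
  set n : R0 C X := e - p with hn
  have hpn : p * n = n := by rw [hn, mul_sub, hpe, hpp]
  have hnp : n * p = n := by rw [hn, sub_mul, hep, hpp]
  have hpH : ∀ (l : ℤ) (v : H.A X), v ∈ H.gr X l → actH C X H p v = if l = m then v else 0 :=
    fun l v hv => hP.actH_eq' m l hv
  have hntr : Tr H n := by
    apply tr_of_act
    intro l v hv
    have e1 : actH C X H (e : Cor C X) v = if l = m then v else 0 := by
      change actH C X H ((p : Cor C X) * (U : Cor C X) * (p : Cor C X)) v = _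
      rw [map_mul, map_mul, Module.End.mul_apply, Module.End.mul_apply, hpH l v hv]
      split_ifs with hlm
      · subst hlm
        rw [actH_U, hm v hv, hpH _ v hv, if_pos rfl]
      · rw [map_zero, map_zero]
    change actH C X H ((e : Cor C X) - (p : Cor C X)) v = 0
    rw [map_sub, LinearMap.sub_apply, e1, hpH l v hv, sub_self]
  have hnil1 : IsNilpotent (e * e - e) := by
    obtain ⟨N, hN⟩ := hnil n hntr
    have e1 : e * e - e = n * U * p := by
      calc e * e - e = (e - p) * e := by rw [sub_mul, hpe]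
        _ = n * (p * U * p) := rfl
        _ = (n * p) * U * p := by simp only [mul_assoc]
        _ = _ := by rw [hnp]
    have e2 : ∀ t : ℕ, (n * U * p) ^ (t + 1) = (n * U) ^ (t + 1) * p := by
      intro t
      induction t with
      | zero => rw [zero_add, pow_one, pow_one]
      | succ t ih =>
        rw [pow_succ, ih]
        calc (n * U) ^ (t + 1) * p * (n * U * p) = (n * U) ^ (t + 1) * ((p * n) * U * p) := by
              simp only [mul_assoc]
          _ = (n * U) ^ (t + 1) * (n * U) * p := by rw [hpn]; simp only [mul_assoc]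
          _ = _ := by rw [← pow_succ]
    refine ⟨N + 1, ?_⟩
    rw [e1, e2, pow_succ, hN, zero_mul, zero_mul]
  obtain ⟨E, g, c, hEE, hE1, hE2, hE3, -, -⟩ := exists_idem hnil1
  have hpE : p * E = E := by rw [hE2, ← mul_assoc, hpe]
  have hEp : E * p = E := by rw [hE1, mul_assoc, hep]
  set q : R0 C X := p - E with hq
  have hqtr : Tr H q := by
    have e1 : q = -n - n * (e * c) := by
      have e2 : e * e - e = n * e := by rw [hn, sub_mul, hpe]
      rw [hq, ← mul_assoc, ← e2, ← hE3, hn]
      abel
    rw [e1]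
    exact hntr.neg.sub (hntr.mul_right _)
  have hqq : q * q = q := by
    rw [hq, mul_sub, sub_mul, sub_mul, hpp, hpE, hEp, hEE]
    abel
  have hpq : p * q = q := by rw [hq, mul_sub, hpp, hpE]
  have hqp : q * p = q := by rw [hq, sub_mul, hpp, hEp]
  refine ⟨g, fun j x hx => ?_⟩
  have h1 : actC C X (q : Cor C X) x = 0 :=
    phantom_act h hP (q := (q : Cor C X)) q.2 hqtr (congrArg Subtype.val hqq) (i := m)
      (congrArg Subtype.val hpq) (congrArg Subtype.val hqp) hx
  have h2 : actC C X (p : Cor C X) x = actC C X (E : Cor C X) x := by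
    have h3 : (q : Cor C X) = (p : Cor C X) - (E : Cor C X) := rfl
    rw [h3, map_sub, LinearMap.sub_apply, sub_eq_zero] at h1
    exact h1
  constructor
  · have h3 : (E : Cor C X) = P m * U * P m * g := congrArg Subtype.val hE2
    rw [← h3]
    exact h2
  · have h3 : (E : Cor C X) = g * (P m * U * P m) := congrArg Subtype.val hE1
    rw [← h3]
    exact h2

/-- `b ∘ a` is injective on the Chow groups, if it is the identity of the cohomology. -/
theorem inj (hnil : ∀ n : R0 C X, Tr H n → IsNilpotent (n * phi ha hb 1)) (h : MurreC H X)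
    {P : ℕ → Cor C X} (hP : IsCK H X P)
    (hm : ∀ v : H.A X, H.act (H.cl b) (H.act (H.cl a) v) = v) {j : ℕ} {x : C.A X}
    (hx : x ∈ C.gr X j) (h0 : actC C X (phi ha hb 1) x = 0) : x = 0 := by
  have hsum : ∀ y : C.A X, y = ∑ l ∈ Finset.range (2 * X.dim + 1), actC C X (P l) y := by
    intro y
    have h2 : actC C X (∑ l ∈ Finset.range (2 * X.dim + 1), P l) y = y := by
      rw [hP.sum_eq, map_one]
      rfl
    rw [map_sum, LinearMap.sum_apply] at h2
    exact h2.symm
  have key : ∀ t l : ℕ, 2 * X.dim + 1 ≤ l + t → actC C X (P l) x = 0 := by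
    intro t
    induction t with
    | zero =>
      intro l hl
      rw [show P l = 0 from hP.out l (by omega), map_zero]
      rfl
    | succ t ih =>
      intro l hl
      by_cases hl' : 2 * X.dim + 1 ≤ l + t
      · exact ih l hl'
      have h1 : actC C X (P l * phi ha hb 1 * P l) x = 0 := by
        have h2 : actC C X (P l * phi ha hb 1) x = 0 := by
          rw [actC_mul (H := H), h0, map_zero]
        rw [actC_mul (H := H)]
        rw [hsum x, map_sum] at h2
        rw [Finset.sum_eq_single l] at h2
        · exact h2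
        · intro l' _ hne
          rcases lt_or_gt_of_ne hne with h3 | h3
          · rw [← actC_mul (H := H)]
            exact raise_zero h hP h3 (phi ha hb 1).2 hx
          · rw [ih l' (by omega), map_zero]
        · intro h3
          rw [Finset.mem_range] at h3
          rw [show P l = 0 from hP.out l (by omega), zero_mul, map_zero]
          rfl
      obtain ⟨g, hg⟩ := block ha hb hnil h hP l fun v _ => hm v
      rw [(hg j x hx).2, actC_mul (H := H), h1, map_zero]
  rw [hsum x]
  exact Finset.sum_eq_zero fun l _ => key (2 * X.dim + 1) l (by omega)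

/-- If `b ∘ a` is the identity of the cohomology and injective on the Chow groups, it is invertible
on the Chow groups. -/
theorem exists_inv (hnil : ∀ n : R0 C X, Tr H n → IsNilpotent (n * phi ha hb 1))
    (hm : ∀ v : H.A X, H.act (H.cl b) (H.act (H.cl a) v) = v)
    (hi : ∀ (j : ℤ) (x : C.A X), x ∈ C.gr X j → actC C X (phi ha hb 1) x = 0 → x = 0) :
    ∃ w : R0 C X, ∀ (j : ℤ) (x : C.A X), x ∈ C.gr X j →
      actC C X (w * phi ha hb 1) x = x ∧ actC C X (phi ha hb 1 * w) x = x := by
  set U : R0 C X := phi ha hb 1 with hU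
  set n : R0 C X := 1 - U with hn
  have hntr : Tr H n := by
    apply tr_of_act
    intro l v hv
    change actH C X H (1 - (U : Cor C X)) v = 0
    rw [map_sub, LinearMap.sub_apply, actH_U, hm, map_one]
    exact sub_self _
  obtain ⟨N, hN⟩ := hnil n hntr
  have hcomm : Commute n U := by
    rw [hn]
    exact (Commute.one_left U).sub_left (Commute.refl U)
  have h1 : U ^ N * n ^ N = 0 := by
    rw [← hcomm.symm.mul_pow N, hcomm.symm.eq]
    exact hN
  have hpow : ∀ (t : ℕ) (j : ℤ) (x : C.A X), x ∈ C.gr X j →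
      actC C X ((U ^ t : R0 C X) : Cor C X) x = 0 → x = 0 := by
    intro t
    induction t with
    | zero =>
      intro j x _ hx0
      rw [pow_zero] at hx0
      have h2 : actC C X ((1 : R0 C X) : Cor C X) x = x := by
        change actC C X 1 x = x
        rw [map_one]
        rfl
      rw [h2] at hx0
      exact hx0
    | succ t ih =>
      intro j x hx hx0
      rw [pow_succ'] at hx0
      have h2 : actC C X (U : Cor C X) (actC C X ((U ^ t : R0 C X) : Cor C X) x) = 0 := by
        rw [← actC_mul (H := H)]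
        exact hx0
      exact ih j x hx (hi j _ (actC_mem (H := H) (U ^ t : R0 C X).2 hx) h2)
  have hnN : ∀ (j : ℤ) (x : C.A X), x ∈ C.gr X j →
      actC C X ((n ^ N : R0 C X) : Cor C X) x = 0 := by
    intro j x hx
    apply hpow N j _ (actC_mem (H := H) (n ^ N : R0 C X).2 hx)
    rw [← actC_mul (H := H)]
    change actC C X ((U ^ N * n ^ N : R0 C X) : Cor C X) x = 0
    rw [h1]
    change actC C X 0 x = 0
    rw [map_zero]
    rfl
  have hUn : 1 - n = U := by rw [hn]; abel
  refine ⟨∑ i ∈ Finset.range N, n ^ i, fun j x hx => ⟨?_, ?_⟩⟩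
  · have h2 := geom_sum_mul_neg n N
    rw [hUn] at h2
    change actC C X (((∑ i ∈ Finset.range N, n ^ i) * U : R0 C X) : Cor C X) x = x
    rw [h2]
    change actC C X (1 - ((n ^ N : R0 C X) : Cor C X)) x = x
    rw [map_sub, LinearMap.sub_apply, hnN j x hx, map_one, sub_zero]
    rfl
  · have h2 := mul_neg_geom_sum n N
    rw [hUn] at h2
    change actC C X ((U * (∑ i ∈ Finset.range N, n ^ i) : R0 C X) : Cor C X) x = x
    rw [h2]
    change actC C X (1 - ((n ^ N : R0 C X) : Cor C X)) x = x
    rw [map_sub, LinearMap.sub_apply, hnN j x hx, map_one, sub_zero]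
    rfl

end Pool.Agent.T9h37.HD
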