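import Pool.Agent.T9h37.HD.Crit

/-!
# Domination outside one degree
-/

open CategoryTheory AlgebraicGeometry

set_option autoImplicit false

universe u v w

namespace Pool.Agent.T9h37.HD

open Pool.Agent.H914 Pool.Agent.H914.VarClass Pool.Agent.H914.VarClass.Obj Pool.Agent.W492.BB
  Pool.Agent.W550.Corr Pool.Agent.TH133 Pool.Agent.Y110 Pool.Agent.TH829.Kim Pool.Agent.T9h37.MC

set_option linter.unusedSectionVars false

variable {k : Type u} [Field k] {𝒱 : VarClass k} {C : TheoryData.{u, v, 0} 𝒱 ℚ}
  [hC : IsChowProj C] {K : Type w} [Field K]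
  {H : WeilTheoryData.{u, v, w} C K} [hH : IsWeilProj H] {X Y Z W : 𝒱.Obj}

variable (H) in
/-- `U` is the identity of `H^m(X)`, and its products with homologically trivial correspondences are
nilpotent. -/
structure Good (m : ℤ) (U : R0 C X) : Prop where
  nil : ∀ n : R0 C X, Tr H n → IsNilpotent (n * U)
  one : ∀ v ∈ H.gr X m, actH C X H U v = v

variable (H) in
/-- `x` acts on the cohomology as the projector to `H^m(X)`. -/
def IsPr (m : ℕ) (x : R0 C X) : Prop :=
  ∀ (l : ℤ) (v : H.A X), v ∈ H.gr X l → actH C X H x v = if l = m then v else 0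

lemma IsPr.of_tr {m : ℕ} {x y : R0 C X} (hx : IsPr H m x) (h : Tr H (y - x)) : IsPr H m y := by
  intro l v hv
  have h1 := h.act v
  have h2 : ((y - x : R0 C X) : Cor C X) = (y : Cor C X) - (x : Cor C X) := rfl
  rw [h2, map_sub, LinearMap.sub_apply, sub_eq_zero] at h1
  rw [h1]
  exact hx l v hv

lemma IsPr.tr_sub {m : ℕ} {x y : R0 C X} (hx : IsPr H m x) (hy : IsPr H m y) : Tr H (x - y) := by
  apply tr_of_act
  intro l v hv
  change actH C X H ((x : Cor C X) - (y : Cor C X)) v = 0
  rw [map_sub, LinearMap.sub_apply, hx l v hv, hy l v hv, sub_self]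

lemma actH_mul (x y : R0 C X) (v : H.A X) :
    actH C X H ((x * y : R0 C X) : Cor C X) v = actH C X H x (actH C X H y v) := by
  change actH C X H ((x : Cor C X) * (y : Cor C X)) v = _
  rw [map_mul, Module.End.mul_apply]

lemma IsPr.tr_mul {m l : ℕ} {x y : R0 C X} (hx : IsPr H m x) (hy : IsPr H l y) (h : m ≠ l) :
    Tr H (x * y) := by
  apply tr_of_act
  intro i v hv
  rw [actH_mul, hy i v hv]
  split_ifs with h1
  · rw [hx i v hv, if_neg (by omega)]
  · rw [map_zero]

lemma isPr_pr {P : ℕ → Cor C X} (hP : IsCK H X P) (m : ℕ) : IsPr H m (pr hP m) :=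
  fun l _ hv => hP.actH_eq' m l hv

/-- The powers of `y U z`. -/
lemma pow_mid (y U z : R0 C X) (t : ℕ) : (y * U * z) ^ (t + 1) = y * U * (z * y * U) ^ t * z := by
  induction t with
  | zero => rw [zero_add, pow_one, pow_zero, mul_one]
  | succ t ih =>
    rw [pow_succ, ih, pow_succ (z * y * U) t]
    simp only [mul_assoc]

/-- Lifting of a Kunneth projector to an idempotent below a given one. -/
theorem lift_pr {m : ℕ} {U : R0 C X} (hU : Good H m U) {κ : R0 C X} (hκ : IsPr H m κ)
    {e : R0 C X} (hee : e * e = e) (he : ∀ v ∈ H.gr X (m : ℤ), actH C X H e v = v) :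
    ∃ E g h : R0 C X, E * E = E ∧ e * E = E ∧ E * e = E ∧ IsPr H m E ∧
      E = g * U * κ * e ∧ E = e * κ * U * h := by
  set u : R0 C X := e * κ * U * κ * e with hu
  have hegr : ∀ (l : ℤ) (v : H.A X), v ∈ H.gr X l → actH C X H e v ∈ H.gr X l := fun l v hv =>
    actH_mem0 e.2 hv
  have hupr : IsPr H m u := by
    intro l v hv
    rw [hu, actH_mul, actH_mul, actH_mul, actH_mul, hκ l _ (hegr l v hv)]
    split_ifs with h1
    · subst h1
      rw [he v hv, hU.one v hv, hκ _ v hv, if_pos rfl, he v hv]
    · rw [map_zero, map_zero, map_zero]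
  have hnil : IsNilpotent (u * u - u) := by
    set t : R0 C X := κ * e * e * κ * U * κ * e - κ * e with ht
    have htr : Tr H t := by
      apply tr_of_act
      intro l v hv
      have e1 : actH C X H ((κ * e : R0 C X) : Cor C X) v = if l = m then v else 0 := by
        rw [actH_mul, hκ l _ (hegr l v hv)]
        split_ifs with h1
        · subst h1
          exact he v hv
        · rfl
      change actH C X H (((κ * e * e * κ * U * κ * e : R0 C X) : Cor C X) -
        ((κ * e : R0 C X) : Cor C X)) v = 0
      rw [map_sub, LinearMap.sub_apply, e1]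
      have e2 : κ * e * e * κ * U * κ * e = κ * (e * u) := by
        rw [hu]
        simp only [mul_assoc]
      rw [e2, actH_mul, actH_mul, hupr l v hv]
      split_ifs with h1
      · subst h1
        rw [he v hv, hκ _ v hv, if_pos rfl, sub_self]
      · rw [map_zero, map_zero, sub_zero]
    have e1 : u * u - u = (e * κ) * U * t := by
      rw [ht, mul_sub, hu]
      simp only [mul_assoc]
    obtain ⟨N, hN⟩ := hU.nil (t * (e * κ)) (htr.mul_right _)
    refine ⟨N + 1, ?_⟩
    rw [e1, pow_mid, hN, mul_zero, zero_mul]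
  obtain ⟨E, g, c, hEE, hE1, hE2, hE3, -, -⟩ := exists_idem hnil
  have heu : e * u = u := by
    rw [hu]
    simp only [← mul_assoc]
    rw [hee]
  have hue : u * e = u := by
    rw [hu]
    simp only [mul_assoc]
    rw [hee]
  refine ⟨E, g * e * κ, κ * e * g, hEE, ?_, ?_, ?_, ?_, ?_⟩
  · rw [hE2, ← mul_assoc, heu]
  · rw [hE1, mul_assoc, hue]
  · apply hupr.of_tr
    rw [hE3]
    have h1 : Tr H (u * u - u) := by
      apply tr_of_act
      intro l v hv
      change actH C X H (((u * u : R0 C X) : Cor C X) - (u : Cor C X)) v = 0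
      rw [map_sub, LinearMap.sub_apply, actH_mul, hupr l v hv]
      split_ifs with h2
      · rw [hupr l v hv, if_pos h2, sub_self]
      · rw [map_zero, sub_zero]
    exact h1.mul_right _
  · rw [hE1, hu]
    simp only [mul_assoc]
  · rw [hE2, hu]
    simp only [mul_assoc]

/-- Orthogonal idempotents which lift the Kunneth projectors of the degrees in `S` and are
orthogonal to a given phantom. -/
theorem exists_family {p : R0 C X} (hpp : p * p = p)
    (hp : Tr H p) (S : Finset ℕ) (hκ : ∀ m ∈ S, ∃ κ : R0 C X, IsPr H m κ)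
    (hS : ∀ m ∈ S, ∃ U : R0 C X, Good H m U) :
    ∃ E : ℕ → R0 C X, (∀ m, m ∉ S → E m = 0) ∧ (∀ m ∈ S, IsPr H m (E m)) ∧
      (∀ l m, E l * E m = if l = m then E l else 0) ∧ (∀ m, p * E m = 0) ∧ ∀ m, E m * p = 0 := by
  classical
  induction S using Finset.induction_on with
  | empty =>
    exact ⟨fun _ => 0, fun _ _ => rfl, fun m hm => absurd hm (Finset.notMem_empty m),
      fun l m => by rw [mul_zero, ite_self], fun _ => mul_zero _, fun _ => zero_mul _⟩
  | insert m S hmS ih =>
    obtain ⟨E, h0, h1, h2, h3, h4⟩ := ih (fun l hl => hκ l (Finset.mem_insert_of_mem hl))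
      fun l hl => hS l (Finset.mem_insert_of_mem hl)
    obtain ⟨U, hU⟩ := hS m (Finset.mem_insert_self m S)
    obtain ⟨κ, hκm⟩ := hκ m (Finset.mem_insert_self m S)
    set s : R0 C X := ∑ l ∈ S, E l with hs
    have hps : p * s = 0 := by
      rw [hs, Finset.mul_sum]
      exact Finset.sum_eq_zero fun l _ => h3 l
    have hsp : s * p = 0 := by
      rw [hs, Finset.sum_mul]
      exact Finset.sum_eq_zero fun l _ => h4 l
    have hEs : ∀ l ∈ S, E l * s = E l := by
      intro l hl
      rw [hs, Finset.mul_sum, Finset.sum_eq_single l]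
      · rw [h2, if_pos rfl]
      · intro i _ hi
        rw [h2, if_neg (Ne.symm hi)]
      · intro h
        exact absurd hl h
    have hsE : ∀ l ∈ S, s * E l = E l := by
      intro l hl
      rw [hs, Finset.sum_mul, Finset.sum_eq_single l]
      · rw [h2, if_pos rfl]
      · intro i _ hi
        rw [h2, if_neg hi]
      · intro h
        exact absurd hl h
    have hss : s * s = s := by
      conv_lhs => rw [hs, Finset.sum_mul]
      rw [← hs]
      exact Finset.sum_congr rfl fun l hl => hEs l hl
    set e : R0 C X := 1 - p - s with he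
    have hpe : p * e = 0 := by
      rw [he, mul_sub, mul_sub, mul_one, hpp, hps, sub_self, sub_zero]
    have hep : e * p = 0 := by
      rw [he, sub_mul, sub_mul, one_mul, hpp, hsp, sub_self, sub_zero]
    have hse : s * e = 0 := by
      rw [he, mul_sub, mul_sub, mul_one, hsp, hss, sub_zero, sub_self]
    have hes : e * s = 0 := by
      rw [he, sub_mul, sub_mul, one_mul, hps, hss, sub_zero, sub_self]
    have hee : e * e = e := by
      conv_lhs => rw [he, sub_mul, sub_mul, one_mul, ← he]
      rw [hpe, hse, sub_zero, sub_zero]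
    have hEe : ∀ l ∈ S, E l * e = 0 := by
      intro l hl
      rw [← hEs l hl, mul_assoc, hse, mul_zero]
    have heE : ∀ l ∈ S, e * E l = 0 := by
      intro l hl
      rw [← hsE l hl, ← mul_assoc, hes, zero_mul]
    have hact : ∀ v ∈ H.gr X (m : ℤ), actH C X H e v = v := by
      intro v hv
      have e1 : actH C X H (s : Cor C X) v = 0 := by
        have e2 : (s : Cor C X) = ∑ l ∈ S, (E l : Cor C X) := by
          rw [hs]
          exact map_sum (cor0 C X).val _ _
        rw [e2, map_sum, LinearMap.sum_apply]
        apply Finset.sum_eq_zero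
        intro l hl
        rw [h1 l hl _ v hv, if_neg]
        intro h
        have : m = l := by exact_mod_cast h
        exact hmS (this ▸ hl)
      change actH C X H ((1 : Cor C X) - (p : Cor C X) - (s : Cor C X)) v = v
      rw [map_sub, map_sub, LinearMap.sub_apply, LinearMap.sub_apply, hp.act, e1, sub_zero,
        sub_zero, map_one]
      rfl
    obtain ⟨F, -, -, hFF, heF, hFe, hFpr, -, -⟩ := lift_pr hU hκm hee hact
    have hpF : p * F = 0 := by rw [← heF, ← mul_assoc, hpe, zero_mul]
    have hFp : F * p = 0 := by rw [← hFe, mul_assoc, hep, mul_zero]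
    have hEF : ∀ l ∈ S, E l * F = 0 := by
      intro l hl
      rw [← heF, ← mul_assoc, hEe l hl, zero_mul]
    have hFE : ∀ l ∈ S, F * E l = 0 := by
      intro l hl
      rw [← hFe, mul_assoc, heE l hl, mul_zero]
    let G : ℕ → R0 C X := fun l => if l = m then F else E l
    have hGm : G m = F := if_pos rfl
    have hGn : ∀ l, l ≠ m → G l = E l := fun l hl => if_neg hl
    refine ⟨G, ?_, ?_, ?_, ?_, ?_⟩
    · intro l hl
      rw [Finset.mem_insert, not_or] at hl
      rw [hGn l hl.1, h0 l hl.2]
    · intro l hl
      by_cases hlm : l = m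
      · rw [hlm, hGm]
        exact hFpr
      · rw [hGn l hlm]
        exact h1 l ((Finset.mem_insert.1 hl).resolve_left hlm)
    · intro i j
      by_cases hi : i = m
      · rw [hi, hGm]
        by_cases hj : j = m
        · rw [hj, if_pos rfl, hGm, hFF]
        · rw [if_neg (Ne.symm hj), hGn j hj]
          by_cases hjS : j ∈ S
          · exact hFE j hjS
          · rw [h0 j hjS, mul_zero]
      · rw [hGn i hi]
        by_cases hj : j = m
        · rw [hj, hGm, if_neg hi]
          by_cases hiS : i ∈ S
          · exact hEF i hiS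
          · rw [h0 i hiS, zero_mul]
        · rw [hGn j hj]
          exact h2 i j
    · intro l
      by_cases hlm : l = m
      · rw [hlm, hGm]
        exact hpF
      · rw [hGn l hlm]
        exact h3 l
    · intro l
      by_cases hlm : l = m
      · rw [hlm, hGm]
        exact hFp
      · rw [hGn l hlm]
        exact h4 l

/-- Existence of a Chow-Kunneth decomposition with a given phantom in the component of one degree,
if the Kunneth projectors of the other degrees are algebraic. -/
theorem exists_ck_above (d : ℕ) (hκ : ∀ m : ℕ, m ≠ d → ∃ κ : R0 C X, IsPr H m κ)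
    (hd : ∀ m : ℕ, m ≠ d → ∃ U : R0 C X, Good H m U) {p : R0 C X} (hpp : p * p = p)
    (hp : Tr H p) : ∃ (d' : ℕ) (F : ℕ → R0 C X), IsCK H X (fun l => (F l : Cor C X)) ∧
      F d' * p = p ∧ p * F d' = p := by
  classical
  -- we may assume that `d ≤ 2 dim X`
  obtain ⟨d', hd'D, hd'⟩ : ∃ d' : ℕ, d' ≤ 2 * X.dim ∧
      ∀ m : ℕ, m ≤ 2 * X.dim → m ≠ d' → (∃ κ : R0 C X, IsPr H m κ) ∧
        ∃ U : R0 C X, Good H m U := by
    by_cases h1 : d ≤ 2 * X.dim
    · exact ⟨d, h1, fun m _ hm => ⟨hκ m hm, hd m hm⟩⟩
    · exact ⟨0, Nat.zero_le _, fun m hmD _ => ⟨hκ m (by omega), hd m (by omega)⟩⟩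
  set S : Finset ℕ := (Finset.range (2 * X.dim + 1)).erase d' with hS
  obtain ⟨E, h0, h1, h2, h3, h4⟩ := exists_family hpp hp S (by
    intro m hm
    rw [hS, Finset.mem_erase, Finset.mem_range] at hm
    exact (hd' m (by omega) hm.1).1) (by
    intro m hm
    rw [hS, Finset.mem_erase, Finset.mem_range] at hm
    exact (hd' m (by omega) hm.1).2)
  set s : R0 C X := ∑ l ∈ S, E l with hs
  have hE0 : E d' = 0 := h0 d' (Finset.notMem_erase _ _)
  have hEs : ∀ l, E l * s = E l := by
    intro l
    by_cases hl : l ∈ S
    · rw [hs, Finset.mul_sum, Finset.sum_eq_single l]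
      · rw [h2, if_pos rfl]
      · intro i _ hi
        rw [h2, if_neg (Ne.symm hi)]
      · intro h
        exact absurd hl h
    · rw [h0 l hl, zero_mul]
  have hsE : ∀ l, s * E l = E l := by
    intro l
    by_cases hl : l ∈ S
    · rw [hs, Finset.sum_mul, Finset.sum_eq_single l]
      · rw [h2, if_pos rfl]
      · intro i _ hi
        rw [h2, if_neg hi]
      · intro h
        exact absurd hl h
    · rw [h0 l hl, mul_zero]
  have hss : s * s = s := by
    conv_lhs => rw [hs, Finset.sum_mul]
    rw [← hs]
    exact Finset.sum_congr rfl fun l _ => hEs l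
  have hps : p * s = 0 := by
    rw [hs, Finset.mul_sum]
    exact Finset.sum_eq_zero fun l _ => h3 l
  have hsp : s * p = 0 := by
    rw [hs, Finset.sum_mul]
    exact Finset.sum_eq_zero fun l _ => h4 l
  let F : ℕ → R0 C X := fun l => if l = d' then 1 - s else E l
  have hFd : F d' = 1 - s := if_pos rfl
  have hFn : ∀ l, l ≠ d' → F l = E l := fun l hl => if_neg hl
  have hFF : ∀ i l, F i * F l = if i = l then F i else 0 := by
    intro i l
    by_cases hi : i = d'
    · subst hi
      rw [hFd]
      by_cases hl : l = i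
      · subst hl
        rw [if_pos rfl, hFd, mul_sub, mul_one, sub_mul, one_mul, hss, sub_self, sub_zero]
      · rw [hFn l hl, if_neg (Ne.symm hl), sub_mul, one_mul, hsE, sub_self]
    · rw [hFn i hi]
      by_cases hl : l = d'
      · subst hl
        rw [hFd, if_neg hi, mul_sub, mul_one, hEs, sub_self]
      · rw [hFn l hl, h2]
  have hsum : ∑ l ∈ Finset.range (2 * X.dim + 1), F l = 1 := by
    rw [← Finset.add_sum_erase _ _ (Finset.mem_range.2 (by omega : d' < 2 * X.dim + 1)), hFd]
    have e1 : ∑ l ∈ (Finset.range (2 * X.dim + 1)).erase d', F l = s := by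
      rw [hs, hS]
      exact Finset.sum_congr rfl fun l hl => hFn l (Finset.ne_of_mem_erase hl)
    rw [e1, sub_add_cancel]
  have hspr : ∀ (m : ℤ) (v : H.A X), v ∈ H.gr X m → actH C X H s v = if m = d' then 0 else v := by
    intro m v hv
    have e2 : (s : Cor C X) = ∑ l ∈ S, (E l : Cor C X) := by
      rw [hs]
      exact map_sum (cor0 C X).val _ _
    rw [e2, map_sum, LinearMap.sum_apply]
    by_cases hv0 : v = 0
    · rw [hv0, ite_self]
      exact Finset.sum_eq_zero fun l _ => map_zero _
    · obtain ⟨q, rfl⟩ := Int.eq_ofNat_of_zero_le (nonneg_of_mem H hv hv0)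
      have hq : q ≤ 2 * X.dim := by
        by_contra hlt
        have h5 := gr_top H (X := X) (i := (q : ℤ)) (by omega)
        rw [h5] at hv
        exact hv0 ((Submodule.mem_bot _).1 hv)
      by_cases hqd : q = d'
      · rw [if_pos (by exact_mod_cast hqd)]
        apply Finset.sum_eq_zero
        intro l hl
        rw [h1 l hl _ v hv, if_neg]
        intro h5
        have h6 : q = l := by exact_mod_cast h5
        rw [hS, Finset.mem_erase] at hl
        exact hl.1 (h6.symm.trans hqd)
      · rw [if_neg (by exact_mod_cast hqd), Finset.sum_eq_single q]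
        · rw [h1 q _ _ v hv, if_pos rfl]
          rw [hS, Finset.mem_erase, Finset.mem_range]
          exact ⟨hqd, by omega⟩
        · intro l hl hlq
          rw [h1 l hl _ v hv, if_neg]
          intro h5
          exact hlq (by exact_mod_cast h5.symm)
        · intro h5
          exfalso
          apply h5
          rw [hS, Finset.mem_erase, Finset.mem_range]
          exact ⟨hqd, by omega⟩
  have hQ : IsCK H X (fun l => (F l : Cor C X)) := by
    refine isCK_of (fun l => (F l).2) (fun l hl => ?_) (fun i l => ?_) ?_ (fun l m v hv => ?_)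
    · have e1 : F l = 0 := by
        rw [hFn l (by omega)]
        apply h0
        rw [hS, Finset.mem_erase, Finset.mem_range]
        omega
      exact congrArg Subtype.val e1
    · have e1 := congrArg Subtype.val (hFF i l)
      rw [apply_ite Subtype.val] at e1
      exact e1
    · have e2 : (cor0 C X).val (∑ l ∈ Finset.range (2 * X.dim + 1), F l) =
          ∑ l ∈ Finset.range (2 * X.dim + 1), (cor0 C X).val (F l) := map_sum _ _ _
      exact e2.symm.trans (congrArg (cor0 C X).val hsum)
    · by_cases hl : l = d'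
      · subst hl
        rw [hFd]
        change actH C X H ((1 : Cor C X) - (s : Cor C X)) v = _
        rw [map_sub, LinearMap.sub_apply, hspr m v hv, map_one]
        split_ifs
        · exact sub_zero _
        · exact sub_self _
      · rw [hFn l hl]
        by_cases hlS : l ∈ S
        · exact h1 l hlS m v hv
        · rw [h0 l hlS]
          have e1 : actH C X H ((0 : R0 C X) : Cor C X) v = 0 := by
            change actH C X H 0 v = 0
            rw [map_zero]
            rfl
          rw [e1]
          split_ifs with h5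
          · by_contra h6
            have h7 := gr_top H (X := X) (i := m) (by
              rw [hS, Finset.mem_erase, Finset.mem_range] at hlS
              omega)
            rw [h7] at hv
            exact h6 ((Submodule.mem_bot _).1 hv).symm
          · rfl
  have hFp : F d' * p = p := by rw [hFd, sub_mul, one_mul, hsp, sub_zero]
  have hpF : p * F d' = p := by rw [hFd, mul_sub, mul_one, hps, sub_zero]
  exact ⟨d', F, hQ, hFp, hpF⟩

/-- Phantoms act as zero on the Chow groups, if (C) holds and the cohomology is dominated outside one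
degree. -/
theorem phantoms_act_zero (h : MurreC H X) {P : ℕ → Cor C X} (hP : IsCK H X P) (d : ℕ)
    (hd : ∀ m : ℕ, m ≠ d → ∃ U : R0 C X, Good H m U) {p : R0 C X} (hpp : p * p = p)
    (hp : Tr H p) {j : ℕ} {x : C.A X} (hx : x ∈ C.gr X j) : actC C X p x = 0 := by
  obtain ⟨d', F, hQ, hFp, hpF⟩ := exists_ck_above d (fun m _ => ⟨pr hP m, isPr_pr hP m⟩) hd hpp hp
  exact phantom_act h hQ (q := (p : Cor C X)) p.2 hp (congrArg Subtype.val hpp) (i := d')
    (congrArg Subtype.val hFp) (congrArg Subtype.val hpF) hx

end Pool.Agent.T9h37.HD
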