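import Pool.Agent.T9h37.HD.Outside

/-!
# Domination outside one degree: the criterion
-/

open CategoryTheory AlgebraicGeometry

set_option autoImplicit false

universe u v w

namespace Pool.Agent.T9h37.HD

open Pool.Agent.H914 Pool.Agent.H914.VarClass Pool.Agent.H914.VarClass.Obj Pool.Agent.W492.BB
  Pool.Agent.W550.Corr Pool.Agent.TH133 Pool.Agent.Y110 Pool.Agent.TH829.Kim Pool.Agent.T9h37.MC

set_option linter.unusedSectionVars false

variable {k : Type u} [Field k] {𝒱 : VarClass k} {C : TheoryData.{u, v, 0} 𝒱 ℚ}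
  [hC : IsChowProj C] {K : Type w} [Field K]
  {H : WeilTheoryData.{u, v, w} C K} [hH : IsWeilProj H] {X Y Z W : 𝒱.Obj}

/-- A self-correspondence which is idempotent on the Chow groups and whose component of weight `2i-n`
is nilpotent on the Chow groups maps `F^n CH^i(X)` to `F^(n+1) CH^i(X)`. -/
theorem NoRaise.next' {Q : ℕ → Cor C X} (hQ : IsCK H X Q) (h : NoRaise Q) (ω : R0 C X) {i n : ℕ}
    (hnil : ∀ m : ℕ, 2 * i = m + n → ∃ N : ℕ, ∀ x ∈ C.gr X i,
      actC C X (((pr hQ m * ω * pr hQ m) ^ N : R0 C X) : Cor C X) x = 0)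
    (hidem : ∀ y ∈ C.gr X i, actC C X ω (actC C X ω y) = actC C X ω y)
    {y : C.A X} (hy : y ∈ ckFil C Q i n) : actC C X ω y ∈ ckFil C Q i (n + 1) := by
  by_cases hn : 2 * i < n
  · have h1 : y = 0 := by
      rw [sum_pr hQ y]
      exact Finset.sum_eq_zero fun l _ => ((mem_fil hQ i n y).1 hy).2 l (by omega)
    rw [h1, map_zero]
    exact Submodule.zero_mem _
  obtain ⟨m, hm⟩ : ∃ m : ℕ, 2 * i = m + n := ⟨2 * i - n, by omega⟩
  have hyi : y ∈ C.gr X i := ((mem_fil hQ i n y).1 hy).1
  obtain ⟨N, hN⟩ := hnil m hm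
  set q : R0 C X := pr hQ m with hq
  set ν : R0 C X := q * ω * q with hν
  have hstep : ∀ z ∈ ckFil C Q i n, actC C X (Q m) (actC C X ω z) =
      actC C X (ν : Cor C X) (actC C X (Q m) z) := by
    intro z hz
    have hz' := (mem_fil hQ i n z).1 hz
    have e1 : actC C X (ν : Cor C X) (actC C X (Q m) z) =
        actC C X (Q m) (actC C X ω (actC C X (Q m) z)) := by
      have e2 : (ν : Cor C X) * Q m = Q m * (ω : Cor C X) * Q m := by
        change Q m * (ω : Cor C X) * Q m * Q m = _
        rw [mul_assoc _ (Q m) (Q m), hQ.mul_eq, if_pos rfl]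
      rw [← actC_mul (H := H), e2, actC_mul (H := H), actC_mul (H := H)]
    rw [e1]
    conv_lhs => rw [sum_pr hQ z, map_sum, map_sum]
    rw [Finset.sum_eq_single m]
    · intro l _ hne
      rcases lt_or_gt_of_ne hne with h3 | h3
      · have h4 := h l m h3 ω ω.2 i z hz'.1
        rw [actC_mul (H := H), actC_mul (H := H)] at h4
        exact h4
      · rw [hz'.2 l (by omega), map_zero, map_zero]
    · intro h3
      rw [Finset.mem_range] at h3
      rw [show Q m = 0 from hQ.out m (by omega), map_zero]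
      rfl
  have hiter : ∀ t : ℕ, (actC C X (ω : Cor C X))^[t] y ∈ ckFil C Q i n ∧
      actC C X (Q m) ((actC C X (ω : Cor C X))^[t] y) =
        actC C X ((ν ^ t : R0 C X) : Cor C X) (actC C X (Q m) y) := by
    intro t
    induction t with
    | zero =>
      refine ⟨hy, ?_⟩
      rw [pow_zero]
      change _ = actC C X 1 _
      rw [map_one]
      rfl
    | succ t ih =>
      rw [Function.iterate_succ_apply']
      refine ⟨h.stable hQ ω.2 ih.1, ?_⟩
      rw [hstep _ ih.1, ih.2, pow_succ', ← actC_mul (H := H)]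
      rfl
  have hid : ∀ t : ℕ, (actC C X (ω : Cor C X))^[t + 1] y = actC C X ω y := by
    intro t
    induction t with
    | zero => rfl
    | succ t ih =>
      rw [Function.iterate_succ_apply', ih]
      exact hidem y hyi
  have h6 : actC C X (Q m) (actC C X ω y) = 0 := by
    have h5 := (hiter (N + 1)).2
    rw [hid N, pow_succ'] at h5
    have h8 : actC C X ((ν * ν ^ N : R0 C X) : Cor C X) (actC C X (Q m) y) =
        actC C X (ν : Cor C X) (actC C X ((ν ^ N : R0 C X) : Cor C X) (actC C X (Q m) y)) :=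
      actC_mul (H := H) (ν : Cor C X) ((ν ^ N : R0 C X) : Cor C X) _
    rw [h8, hN _ (actC_mem (H := H) (hQ.deg m) hyi), map_zero] at h5
    exact h5
  have h7 : actC C X ω y ∈ ckFil C Q i n := h.stable hQ ω.2 hy
  rw [mem_fil hQ] at h7 ⊢
  refine ⟨h7.1, fun l hl => ?_⟩
  by_cases hlm : l = m
  · rw [hlm]
    exact h6
  · exact h7.2 l (by omega)

/-- The filtrations agree if one of the decompositions does not raise weights. -/
theorem NoRaise.fil_iff' {P Q : ℕ → Cor C X} (hQ : IsCK H X Q) (h : NoRaise Q)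
    (hB : ∀ (j m : ℕ) (x : C.A X), x ∈ C.gr X j → 2 * j < m → actC C X (Q m) x = 0)
    (hP : IsCK H X P)
    (hnil : ∀ l m : ℕ, m ≠ l → ∀ j : ℕ, ∃ N : ℕ, ∀ x ∈ C.gr X j,
      actC C X (((pr hQ m * pr hP l * pr hQ m) ^ N : R0 C X) : Cor C X) x = 0)
    {j : ℕ} (n : ℕ) {x : C.A X}
    (hx : x ∈ C.gr X j) : x ∈ ckFil C P j n ↔ x ∈ ckFil C Q j n := by
  let ω : ℕ → R0 C X := fun l => pr hP l
  have hω : ∀ l y, actC C X (ω l) y = actC C X (P l) y := fun _ _ => rfl
  have hωi : ∀ l, ∀ y ∈ C.gr X j, actC C X (ω l) (actC C X (ω l) y) = actC C X (ω l) y := by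
    intro l y _
    rw [hω, hω, ← actC_mul (H := H), hP.mul_eq, if_pos rfl]
  constructor
  · intro hxf
    rw [mem_fil hP] at hxf
    rw [sum_pr hP x]
    refine Submodule.sum_mem _ fun l _ => ?_
    by_cases hl : 2 * j + 1 - n ≤ l
    · rw [hxf.2 l hl]
      exact Submodule.zero_mem _
    · have key : ∀ t : ℕ, t ≤ n → actC C X (ω l) x ∈ ckFil C Q j t := by
        intro t
        induction t with
        | zero =>
          intro _
          rw [mem_fil hQ]
          have h1 : actC C X (ω l) x ∈ C.gr X j := actC_mem (H := H) (ω l).2 hx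
          exact ⟨h1, fun m hm => hB j m _ h1 (by omega)⟩
        | succ t ih =>
          intro ht
          have h1 := h.next' hQ (ω l) (i := j) (n := t) (fun m hm => hnil l m (by omega) j)
            (hωi l) (ih (by omega))
          rwa [hωi l _ hx] at h1
      exact key n le_rfl
  · intro hxf
    rw [mem_fil hP]
    refine ⟨hx, fun l hl => ?_⟩
    have key : ∀ t : ℕ, actC C X (ω l) x ∈ ckFil C Q j (n + t) := by
      intro t
      induction t with
      | zero => exact h.stable hQ (ω l).2 hxf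
      | succ t ih =>
        have h1 := h.next' hQ (ω l) (i := j) (n := n + t) (fun m hm => hnil l m (by omega) j)
          (hωi l) ih
        rwa [hωi l _ hx] at h1
    have h1 := (mem_fil hQ j _ _).1 (key (2 * j + 1))
    have h2 : actC C X (ω l) x = 0 := by
      rw [sum_pr hQ (actC C X (ω l) x)]
      exact Finset.sum_eq_zero fun l _ => h1.2 l (by omega)
    exact h2

variable (H) in
/-- Phantoms act as zero on the Chow groups. -/
def Ph (X : 𝒱.Obj) : Prop := ∀ p : R0 C X, p * p = p → Tr H p → ∀ (j : ℕ) (x : C.A X),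
  x ∈ C.gr X j → actC C X p x = 0

include hC hH in
lemma coe_mul_act (x y : R0 C X) (z : C.A X) :
    actC C X ((x * y : R0 C X) : Cor C X) z = actC C X x (actC C X y z) :=
  actC_mul (H := H) (x : Cor C X) (y : Cor C X) z

include hC hH in
lemma pow_act {x y : R0 C X} {j : ℕ} (h : ∀ z ∈ C.gr X j, actC C X x z = actC C X y z) (t : ℕ) :
    ∀ z ∈ C.gr X j, actC C X ((x ^ t : R0 C X) : Cor C X) z =
      actC C X ((y ^ t : R0 C X) : Cor C X) z := by
  induction t with
  | zero => intro z _; rw [pow_zero, pow_zero]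
  | succ t ih =>
    intro z hz
    rw [pow_succ, pow_succ, coe_mul_act (H := H), coe_mul_act (H := H), h z hz]
    exact ih _ (actC_mem (H := H) y.2 hz)

/-- The components of a second decomposition are nilpotent off the diagonal. -/
theorem nil_off (hph : Ph H X) {P Q : ℕ → Cor C X} (hP : IsCK H X P) (hQ : IsCK H X Q) {l m : ℕ}
    (hml : m ≠ l)
    (hU : (∃ U : R0 C X, Good H m U) ∨ ∃ U : R0 C X, Good H l U) (j : ℕ) :
    ∃ N : ℕ, ∀ x ∈ C.gr X j,
      actC C X (((pr hQ m * pr hP l * pr hQ m) ^ N : R0 C X) : Cor C X) x = 0 := by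
  set q : R0 C X := pr hQ m with hq
  set ω : R0 C X := pr hP l with hω
  have hqq : q * q = q := Subtype.ext (by
    change Q m * Q m = Q m
    rw [hQ.mul_eq, if_pos rfl])
  have hωω : ω * ω = ω := Subtype.ext (by
    change P l * P l = P l
    rw [hP.mul_eq, if_pos rfl])
  have htr : Tr H (q * ω) := (isPr_pr hQ m).tr_mul (isPr_pr hP l) hml
  -- an element with the same action, which is nilpotent
  suffices h : ∃ ν' : R0 C X, IsNilpotent ν' ∧ ∀ x ∈ C.gr X j,
      actC C X ((q * ω * q : R0 C X) : Cor C X) x = actC C X ν' x by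
    obtain ⟨ν', ⟨N, hN⟩, h1⟩ := h
    refine ⟨N, fun x hx => ?_⟩
    rw [pow_act (H := H) h1 N x hx, hN]
    change actC C X 0 x = 0
    rw [map_zero]
    rfl
  have same : ∀ (e E : R0 C X), e * e = e → E * E = E → e * E = E → E * e = E → Tr H (e - E) →
      ∀ x ∈ C.gr X j, actC C X e x = actC C X E x := by
    intro e E h1 h2 h3 h4 h5 x hx
    have h6 := hph (e - E) (by rw [mul_sub, sub_mul, sub_mul, h1, h3, h4, h2]; abel) h5 j x hx
    change actC C X ((e : Cor C X) - (E : Cor C X)) x = 0 at h6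
    rw [map_sub, LinearMap.sub_apply, sub_eq_zero] at h6
    exact h6
  rcases hU with ⟨U, hU⟩ | ⟨U, hU⟩
  · obtain ⟨E, g, h, hEE, heE, hEe, hpr, hE, -⟩ := lift_pr hU (isPr_pr hQ m) (e := q) hqq
      (fun v hv => by
        have := isPr_pr hQ m m v hv
        rwa [if_pos rfl] at this)
    have hs := same q E hqq hEE heE hEe ((isPr_pr hQ m).tr_sub hpr)
    refine ⟨(q * ω * q * g) * U * (q * q), ?_, fun x hx => ?_⟩
    · obtain ⟨N, hN⟩ := hU.nil (q * q * (q * ω * q * g))
        (by
          have : q * q * (q * ω * q * g) = q * q * (q * ω) * (q * g) := by simp only [mul_assoc]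
          rw [this]
          exact (htr.mul_left _).mul_right _)
      exact ⟨N + 1, by rw [pow_mid, hN, mul_zero, zero_mul]⟩
    · have e1 : (q * ω * q * g) * U * (q * q) = q * ω * q * E := by
        rw [hE]
        simp only [mul_assoc]
        rfl
      rw [e1, coe_mul_act (H := H) (q * ω * q) E, ← hs x hx, ← coe_mul_act (H := H), mul_assoc _ q q,
        hqq]
  · obtain ⟨E, g, h, hEE, heE, hEe, hpr, -, hE⟩ := lift_pr hU (isPr_pr hP l) (e := ω) hωω
      (fun v hv => by
        have := isPr_pr hP l l v hv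
        rwa [if_pos rfl] at this)
    have hs := same ω E hωω hEE heE hEe ((isPr_pr hP l).tr_sub hpr)
    refine ⟨(q * (ω * ω)) * U * (h * q), ?_, fun x hx => ?_⟩
    · obtain ⟨N, hN⟩ := hU.nil (h * q * (q * (ω * ω)))
        (by
          have : h * q * (q * (ω * ω)) = h * q * (q * ω) * ω := by simp only [mul_assoc]
          rw [this]
          exact (htr.mul_left _).mul_right _)
      exact ⟨N + 1, by rw [pow_mid, hN, mul_zero, zero_mul]⟩
    · have e1 : (q * (ω * ω)) * U * (h * q) = q * E * q := by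
        rw [hE]
        simp only [mul_assoc]
        rfl
      have hqx : actC C X (q : Cor C X) x ∈ C.gr X j := actC_mem (H := H) q.2 hx
      rw [e1, coe_mul_act (H := H), coe_mul_act (H := H), coe_mul_act (H := H),
        coe_mul_act (H := H), hs _ hqx]

/-- (C) from one decomposition and the vanishing of phantoms. -/
theorem murreC_outside (hph : Ph H X) (d : ℕ) (hd : ∀ m : ℕ, m ≠ d → ∃ U : R0 C X, Good H m U)
    {Q : ℕ → Cor C X} (hQ : IsCK H X Q) (h : NoRaise Q)
    (hB : ∀ (j m : ℕ) (x : C.A X), x ∈ C.gr X j → 2 * j < m → actC C X (Q m) x = 0) :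
    MurreC H X := by
  have key : ∀ {P : ℕ → Cor C X} (hP : IsCK H X P) (l m : ℕ), m ≠ l → ∀ j : ℕ, ∃ N : ℕ,
      ∀ x ∈ C.gr X j, actC C X (((pr hQ m * pr hP l * pr hQ m) ^ N : R0 C X) : Cor C X) x = 0 := by
    intro P hP l m hml j
    apply nil_off hph hP hQ hml
    by_cases hm : m = d
    · exact Or.inr (hd l (fun hl => hml (hm.trans hl.symm)))
    · exact Or.inl (hd m hm)
  intro π π' hπ hπ' j n
  ext x
  by_cases hx : x ∈ C.gr X j
  · rw [h.fil_iff' hQ hB (P := π) hπ (key (P := π) hπ) n hx,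
      h.fil_iff' hQ hB (P := π') hπ' (key (P := π') hπ') n hx]
  · exact ⟨fun h1 => absurd ((mem_fil (P := π) hπ j n x).1 h1).1 hx,
      fun h1 => absurd ((mem_fil (P := π') hπ' j n x).1 h1).1 hx⟩

end Pool.Agent.T9h37.HD
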